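import Pool.Agent.H74.CP.ColNumB

/-!
The code of an inactive column (`StColIn`).
-/

set_option autoImplicit false

namespace Pool.Agent.H74.CP

open Finset ComplexConjugate H95.CP Pool.Agent.H98.CP Pool.Agent.H74.CM H67.CM

theorem avg_add {A B : ℕ} (f g : Fin A × Fin B → ℂ) :
    avg A B (fun i => f i + g i) = avg A B f + avg A B g := by
  unfold avg
  rw [Finset.sum_add_distrib]
  ring

/-- abstract assembly -/
theorem assemble {M u j b c : ℕ} (hb : Large j b) (hc : Large j c) (hbM : b ≤ M) (hcM : c ≤ M)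
    (hbc : b + c = M + u) (hj : 3 ≤ j) (hu : u < 2 ^ j) (Ψ : G M → ℝ) (phi : G M → ℂ)
    (AA : Finset (Gr (b + 1) (c + 1) → ℂ)) (T : ℝ) (hT0 : 0 ≤ T) (hT : T ≤ 14) :
    ∃ PP : Finset (G M → ℂ),
      (PP.card : ℝ) ≤ 2 ^ (n0 M j * (12 + 3 * u + 24 * j)) * AA.card *
        2 ^ (r0 M j * (62 + 3 * u + 12 * j)) ∧
      ∀ w : Cf M, (∀ k, phi k ≠ 0 → k ∈ w.Lam) →
        (∀ k ∈ DD M j b c, ‖co2 (cx w.g) k - phi k‖ ≤ 8 ^ (8 * (j + 1)) / √((8 : ℝ) ^ M)) →
        (∃ e : Gr (b + 1) (c + 1) → ℝ, ∃ q ∈ AA,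
          avgR (8 ^ (b + 1)) (8 ^ (c + 1)) (fun y => |e y|) ≤ 8 ^ (2 * j) ∧
          avgR (8 ^ (b + 1)) (8 ^ (c + 1)) (fun y =>
            ‖loc j b c (cx (fun x => w.g x * Ψ x)) (pt _ _ y) +
              (∑ lam, (phi lam - co2 (cx w.g) lam) * wl j b c Ψ lam (pt _ _ y)) -
                e y - q y‖ ^ 2) ≤ T ^ 2) →
        ∃ psi ∈ PP, KnB j b c psi w ∧ ∀ k, k ∉ DD M j b c → psi k = 0 := by
  classical
  have h8 : (0 : ℝ) < 8 ^ M := by positivity
  have hs8 : 0 < √((8 : ℝ) ^ M) := Real.sqrt_pos.mpr h8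
  set θ : ℝ := 8 ^ (8 * j) / √((8 : ℝ) ^ M) / 2 with hθd
  have hθ : 0 < θ := by positivity
  set R : ℝ := 8 ^ (8 * (j + 1)) / √((8 : ℝ) ^ M) with hRd
  have hRθ : R / θ = ((33554432 : ℕ) : ℝ) := by
    rw [hRd, hθd, show 8 * (j + 1) = 8 * j + 8 from by ring, pow_add]
    field_simp
    norm_num
  have hceil : ⌈R / θ⌉₊ = 33554432 := by
    rw [hRθ, Nat.ceil_natCast]
  set Mu := ↥(DD M j b c) with hMu
  have hcardMu : (Fintype.card Mu : ℝ) ≤ 36 * 8 ^ (M + u) := by
    have h1 : Fintype.card Mu = (DD M j b c).card := Fintype.card_coe _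
    rw [h1, ← hbc]
    exact_mod_cast card_DD M j b c
  have hcardY : (Fintype.card (Gr (b + 1) (c + 1)) : ℝ) ≤ 64 * 8 ^ (M + u) := by
    rw [Fintype.card_prod, Fintype.card_fin, Fintype.card_fin, ← hbc, pow_add, pow_add, pow_add]
    push_cast
    apply le_of_eq
    ring
  -- the codes
  obtain ⟨A0, hA0, hA0'⟩ := maurey_code_chernoff (J := Gr (b + 1) (c + 1)) (Mu := Mu)
    (fun y k => conj (ch2 k.1 (pt (b + 1) (c + 1) y))) (8 ^ (2 * j)) (by positivity)
    (fun y k => by rw [Complex.norm_conj, ch2_norm]) (θ / 2) (by positivity) (n0 M j)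
    (Nat.succ_pos _)
  have href := fun p : Mu → ℂ => refine_code p (fun k => phi k.1) θ R hθ (r0 M j)
    (Nat.succ_pos _)
  choose P hP hP' using href
  set known : Mu → ℂ := fun k => -∑ lam, phi lam * co2 (wl j b c Ψ lam) k.1 with hknown
  set hat : (Gr (b + 1) (c + 1) → ℂ) → Mu → ℂ := fun q k =>
    avg (8 ^ (b + 1)) (8 ^ (c + 1)) (fun y => q y * conj (ch2 k.1 (pt (b + 1) (c + 1) y)))
    with hhat
  set ext : (Mu → ℂ) → G M → ℂ := fun q k => if hk : k ∈ DD M j b c then
    (if θ < ‖q ⟨k, hk⟩‖ then q ⟨k, hk⟩ else 0) else 0 with hext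
  refine ⟨((A0 ×ˢ AA).biUnion (fun x => P (fun k => known k + x.1 k + hat x.2 k))).image ext,
    ?_, ?_⟩
  · have h1 : ((((A0 ×ˢ AA).biUnion (fun x => P (fun k => known k + x.1 k + hat x.2 k))).image
        ext).card : ℝ) ≤ ∑ x ∈ A0 ×ˢ AA,
          ((P (fun k => known k + x.1 k + hat x.2 k)).card : ℝ) := by
      exact_mod_cast Finset.card_image_le.trans Finset.card_biUnion_le
    refine h1.trans ((Finset.sum_le_sum fun x _ => hP _).trans ?_)
    rw [Finset.sum_const, nsmul_eq_mul, Finset.card_product, hceil]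
    push_cast
    have h2 := hA0.trans (l1_factor M u j (Fintype.card (Gr (b + 1) (c + 1)))
      (Nat.cast_nonneg _) hcardY)
    have h3 := list_factor M u j (Fintype.card Mu) (Nat.cast_nonneg _) hcardMu
    push_cast at h3
    exact mul_le_mul (mul_le_mul_of_nonneg_right h2 (Nat.cast_nonneg _)) h3 (by positivity)
      (by positivity)
  · intro w hphi hold ⟨e, q, hq, he, hq2⟩
    set YY : ℝ := ((8 ^ (b + 1) : ℕ) : ℝ) * ((8 ^ (c + 1) : ℕ) : ℝ) with hYY
    have hYY0 : 0 < YY := by
      rw [hYY]
      positivity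
    obtain ⟨g0, hg0, hg0'⟩ := hA0' (fun y => (((1 / YY) * e y : ℝ) : ℂ)) (by
      have h1 : ∑ y, ‖(((1 / YY) * e y : ℝ) : ℂ)‖ =
          avgR (8 ^ (b + 1)) (8 ^ (c + 1)) (fun y => |e y|) := by
        unfold avgR
        rw [← hYY, Finset.mul_sum]
        refine Finset.sum_congr rfl fun y _ => ?_
        rw [Complex.norm_real, Real.norm_eq_abs, abs_mul, abs_of_pos (by positivity : 0 < 1 / YY)]
      rw [h1]
      exact he)
    -- the remainder
    set D : Gr (b + 1) (c + 1) → ℂ := fun y =>
      loc j b c (cx (fun x => w.g x * Ψ x)) (pt _ _ y) +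
        (∑ lam, (phi lam - co2 (cx w.g) lam) * wl j b c Ψ lam (pt _ _ y)) - e y - q y with hD
    have hB := bessel hbM hcM (DD M j b c) (fun k hk => fa_lt_of_mem_DD hk) D
    have hB2 := hB.trans hq2
    -- the identity
    have hid : ∀ k : Mu, co2 (cx w.g) k.1 = known k +
        (∑ y, (((1 / YY) * e y : ℝ) : ℂ) * conj (ch2 k.1 (pt (b + 1) (c + 1) y))) + hat q k +
          hat D k := by
      intro k
      obtain ⟨hk1, hk2⟩ := fa_lt_of_mem_DD k.2
      set H : G M → ℂ := fun x => loc j b c (cx (fun x => w.g x * Ψ x)) x +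
        ∑ lam, (phi lam - co2 (cx w.g) lam) * wl j b c Ψ lam x with hH
      have hHs : ∀ l, co2 H l = co2 (loc j b c (cx (fun x => w.g x * Ψ x))) l +
          ∑ lam, (phi lam - co2 (cx w.g) lam) * co2 (wl j b c Ψ lam) l := by
        intro l
        rw [hH, co2_add, co2_sum univ (fun lam x =>
          (phi lam - co2 (cx w.g) lam) * wl j b c Ψ lam x) l]
        congr 1
        refine Finset.sum_congr rfl fun lam _ => ?_
        rw [co2_smul]
      have h1 : hat (fun y => H (pt (b + 1) (c + 1) y)) k = co2 H k.1 := by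
        simp only [hhat]
        refine grid_co (L := LL M) (A := 8 ^ (b + 1)) (B := 8 ^ (c + 1))
          (Nat.pow_dvd_pow 8 (by omega)) (Nat.pow_dvd_pow 8 (by omega)) H k.1 ?_
        intro l hl
        rw [hHs] at hl
        have h2 : fa l.1 < 3 * 8 ^ b ∧ fa l.2 < 3 * 8 ^ c := by
          by_contra hcon
          apply hl
          have h3 : co2 (loc j b c (cx (fun x => w.g x * Ψ x))) l = 0 := by
            by_contra h4
            exact hcon (co2_loc_zero hb hc hbM hcM _ l h4)
          have h5 : ∀ lam : G M, co2 (wl j b c Ψ lam) l = 0 := by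
            intro lam
            by_contra h4
            exact hcon (co2_loc_zero hb hc hbM hcM _ l h4)
          rw [h3, zero_add]
          exact Finset.sum_eq_zero fun lam _ => by rw [h5, mul_zero]
        rw [pow_succ, pow_succ]
        obtain ⟨h3, h4⟩ := h2
        constructor <;> omega
      have h2 : hat (fun y => H (pt (b + 1) (c + 1) y)) k =
          (∑ y, (((1 / YY) * e y : ℝ) : ℂ) * conj (ch2 k.1 (pt (b + 1) (c + 1) y))) +
            hat q k + hat D k := by
        simp only [hhat]
        have h3 : (∑ y, (((1 / YY) * e y : ℝ) : ℂ) * conj (ch2 k.1 (pt (b + 1) (c + 1) y))) =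
            avg (8 ^ (b + 1)) (8 ^ (c + 1)) (fun y => (e y : ℂ) *
              conj (ch2 k.1 (pt (b + 1) (c + 1) y))) := by
          unfold avg
          rw [Finset.mul_sum]
          refine Finset.sum_congr rfl fun y _ => ?_
          rw [hYY]
          push_cast
          ring
        rw [h3, ← avg_add, ← avg_add]
        congr 1
        funext y
        simp only [hD, hH]
        ring
      have h3 := co2_dec hb hc hbM hcM w.g Ψ k.1 k.2
      have h4 : co2 H k.1 = co2 (cx w.g) k.1 - known k := by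
        rw [hHs, h3]
        simp only [hknown]
        have h5 : ∑ lam, (phi lam - co2 (cx w.g) lam) * co2 (wl j b c Ψ lam) k.1 =
            ∑ lam, phi lam * co2 (wl j b c Ψ lam) k.1 -
              ∑ lam, co2 (cx w.g) lam * co2 (wl j b c Ψ lam) k.1 := by
          rw [← Finset.sum_sub_distrib]
          refine Finset.sum_congr rfl fun lam _ => ?_
          ring
        rw [h5]
        ring
      rw [h1, h4] at h2
      rw [sub_eq_iff_eq_add] at h2
      rw [h2]
      ring
    -- the exceptional set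
    have hcard : (Finset.univ.filter
        (fun k : Mu => θ < ‖co2 (cx w.g) k.1 - (known k + g0 k + hat q k)‖)).card ≤ r0 M j := by
      set E1 := Finset.univ.filter (fun k : Mu => θ / 2 <
        ‖(∑ y, (((1 / YY) * e y : ℝ) : ℂ) * conj (ch2 k.1 (pt (b + 1) (c + 1) y))) - g0 k‖)
        with hE1
      set E2 := Finset.univ.filter (fun k : Mu => θ / 2 < ‖hat D k‖) with hE2
      have hsub : Finset.univ.filter
          (fun k : Mu => θ < ‖co2 (cx w.g) k.1 - (known k + g0 k + hat q k)‖) ⊆ E1 ∪ E2 := by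
        intro k hk
        rw [Finset.mem_filter] at hk
        by_contra hcon
        rw [Finset.mem_union, not_or, hE1, hE2, Finset.mem_filter, Finset.mem_filter] at hcon
        push Not at hcon
        have h1 := hcon.1 (Finset.mem_univ _)
        have h2 := hcon.2 (Finset.mem_univ _)
        have h3 : co2 (cx w.g) k.1 - (known k + g0 k + hat q k) =
            ((∑ y, (((1 / YY) * e y : ℝ) : ℂ) * conj (ch2 k.1 (pt (b + 1) (c + 1) y))) - g0 k) +
              hat D k := by
          rw [hid k]
          ring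
        have h4 := hk.2
        rw [h3] at h4
        have h5 := norm_add_le ((∑ y, (((1 / YY) * e y : ℝ) : ℂ) *
          conj (ch2 k.1 (pt (b + 1) (c + 1) y))) - g0 k) (hat D k)
        linarith
      have hc1 : (E1.card : ℝ) ≤ (r0 M j : ℝ) / 2 :=
        hg0'.trans (chern_num M u j hj hu (Fintype.card Mu) θ hcardMu hθd)
      have hc2 : (E2.card : ℝ) ≤ (r0 M j : ℝ) / 2 :=
        (card_large_le _ _ _ (by positivity) hB2).trans (err_num M j hj T θ hT0 hT hθd)
      have hc3 : ((Finset.univ.filter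
          (fun k : Mu => θ < ‖co2 (cx w.g) k.1 - (known k + g0 k + hat q k)‖)).card : ℝ) ≤
            r0 M j := by
        calc _ ≤ ((E1 ∪ E2).card : ℝ) := by exact_mod_cast Finset.card_le_card hsub
          _ ≤ E1.card + E2.card := by exact_mod_cast Finset.card_union_le _ _
          _ ≤ r0 M j := by linarith
      exact_mod_cast hc3
    obtain ⟨ps, hps, hps'⟩ := hP' (fun k => known k + g0 k + hat q k)
      (fun k => co2 (cx w.g) k.1) (fun k => hold k.1 k.2) hcard
    refine ⟨ext ps, Finset.mem_image_of_mem _ (Finset.mem_biUnion.mpr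
      ⟨(g0, q), Finset.mem_product.mpr ⟨hg0, hq⟩, hps⟩), ?_, ?_⟩
    · obtain ⟨ht1, ht2⟩ := threshold (fun k : Mu => co2 (cx w.g) k.1) ps θ hθ.le hps'
      constructor
      · intro k hk
        by_contra hkL
        apply hk
        simp only [hext]
        split_ifs with h1 h2
        · have h3 := ht1 ⟨k, h1⟩ (w.spec k hkL)
          rw [if_pos h2] at h3
          exact h3
        · rfl
        · rfl
      · intro k hk
        have h1 := ht2 ⟨k, hk⟩
        have h2 : ext ps k = (if θ < ‖ps ⟨k, hk⟩‖ then ps ⟨k, hk⟩ else 0) := by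
          simp only [hext]
          rw [dif_pos hk]
        rw [h2]
        have h3 : (2 * θ) ^ 2 = TH j / 8 ^ M := by
          unfold TH
          rw [hθd, mul_pow, div_pow, div_pow, Real.sq_sqrt h8.le, ← pow_mul,
            show 8 * j * 2 = 16 * j from by ring]
          ring
        rw [← h3]
        exact pow_le_pow_left₀ (norm_nonneg _) h1 2
    · intro k hk
      simp only [hext]
      rw [dif_neg hk]

theorem polar_nonneg (M u d : ℕ) : 0 ≤
    (Real.exp 1 * (4 * (24576 * 8 ^ (M + u + EE d)) + 1 + nd M d) / nd M d) ^ nd M d := by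
  positivity

theorem far_nonneg (M u J s : ℕ) : 0 ≤
    (Real.exp 1 * (4 * (6 * 8 ^ (M + u + 2 ^ s)) + 1 + ns M J s) / ns M J s) ^ ns M J s := by
  positivity

/-- `StColIn` -/
theorem stColIn (hA : StAtom) (hW : StWl) : StColIn := by
  classical
  refine ⟨3, fun j0 j u M hP act h b phi hR hE => ?_⟩
  have hrng := hE.rng
  unfold Rg at hrng
  obtain ⟨hr1, hr2, hr3, hr4⟩ := hrng
  have hbig := hP.big
  unfold Big at hbig
  have hp1 := hP.h1
  have hp2 := hP.h2
  have hp3 := hP.h3
  have hj : 3 ≤ j := by omega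
  have hM : 1000 ≤ M := by omega
  have hjM : j ≤ M := by omega
  have huM : u ≤ M := by omega
  have hu : u < 2 ^ j := lt_of_lt_of_le (Nat.lt_size_self u)
    (Nat.pow_le_pow_right (by norm_num) (by omega))
  have h8 : (0 : ℝ) < 8 ^ M := by positivity
  have hs8 : 0 < √((8 : ℝ) ^ M) := Real.sqrt_pos.mpr h8
  have hL : Lg M j := by
    unfold Lg
    have h1 : M < 2 ^ Nat.size M := Nat.lt_size_self M
    have h2 : (8 : ℕ) ^ Nat.size M = 2 ^ Nat.size M * (2 ^ Nat.size M * 2 ^ Nat.size M) := by
      rw [← pow_add, ← pow_add, show (8 : ℕ) = 2 ^ 3 from rfl, ← pow_mul]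
      congr 1
      ring
    rw [h2]
    have h3 : 10 * (j + 2) ≤ M := by omega
    calc 100 * (j + 2) ^ 2 = (10 * (j + 2)) * (10 * (j + 2)) := by ring
      _ ≤ M * M := Nat.mul_le_mul h3 h3
      _ ≤ 2 ^ Nat.size M * (2 ^ Nat.size M * 2 ^ Nat.size M) := by
          have h4 : M * M ≤ 2 ^ Nat.size M * 2 ^ Nat.size M := Nat.mul_le_mul h1.le h1.le
          have h5 : 1 ≤ 2 ^ Nat.size M := Nat.one_le_two_pow
          calc M * M ≤ 2 ^ Nat.size M * 2 ^ Nat.size M := h4
            _ ≤ 2 ^ Nat.size M * (2 ^ Nat.size M * 2 ^ Nat.size M) :=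
                Nat.mul_le_mul_left _ (Nat.le_mul_of_pos_left _ (by omega))
  have hJ : Jok j (JJ u j) (4 * j) := by
    refine ⟨?_, by omega, ?_⟩
    · unfold JJ
      have h1 : j + 2 ≤ 2 ^ (j + 1) := by
        have : j + 1 < 2 ^ (j + 1) := Nat.lt_two_pow_self
        omega
      calc 1000 * (j + 2) ^ 2 ≤ 1024 * (2 ^ (j + 1)) ^ 2 :=
            Nat.mul_le_mul (by norm_num) (Nat.pow_le_pow_left h1 2)
        _ = 2 ^ (10 + (j + 1) * 2) := by
            rw [pow_add 2 10, pow_mul 2 (j + 1) 2]
            norm_num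
        _ ≤ 2 ^ (3 * (300 * (u + j + 1))) := Nat.pow_le_pow_right (by norm_num) (by omega)
        _ = 8 ^ (300 * (u + j + 1)) := by
            rw [pow_mul 2 3]
            norm_num
    · unfold JJ
      omega
  have hlarge : ∀ a, Nat.size M ≤ a → Large j a := by
    intro a ha
    unfold Large
    exact hL.trans (Nat.pow_le_pow_right (by norm_num) ha)
  obtain ⟨AA, hAA, hAA'⟩ := rep_cand hA hW hR hL hJ hE (8 ^ (2 * j)) (8 ^ M) (by positivity)
    (by positivity) (fun s => 8 ^ (8 * (j + s)) / √((8 : ℝ) ^ M)) (fun s => by positivity)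
    (nd M) (ns M (JJ u j)) (nd_pos M) (ns_pos M (JJ u j))
    (fun d => 2 * (5 / 6 : ℝ) ^ d) (fun s => (1 / 2 : ℝ) ^ s) (fun d => by positivity)
    (fun s => by positivity)
    (fun d hd => polar_tau M u j d (by
      have := (Finset.mem_Icc.mp hd).2
      omega))
    (fun s _ => far_tau M u j s)
  set T : ℝ := ∑ d ∈ Icc (JJ u j) (M + u - b), 2 * (5 / 6 : ℝ) ^ d +
    ∑ s ∈ range (Nat.size M + 1), (1 / 2 : ℝ) ^ s with hT
  have hT0 : 0 ≤ T := add_nonneg
    (Finset.sum_nonneg fun d _ => mul_nonneg (by norm_num) (pow_nonneg (by norm_num) _))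
    (Finset.sum_nonneg fun s _ => pow_nonneg (by norm_num) _)
  have hT14 : T ≤ 14 := tau_sum M (JJ u j) (M + u - b)
  obtain ⟨PP, hPP, hPP'⟩ := assemble (M := M) (u := u) (j := j) (b := b) (c := M + u - b)
    (hlarge b hr1) (hlarge _ hr4) (by omega) (by omega) (by omega) hj hu (Psi h b) phi AA T
    hT0 hT14
  refine ⟨PP, ?_, ?_⟩
  · -- the size
    have h1 : (AA.card : ℝ) ≤
        2 ^ (∑ d ∈ Icc (JJ u j) (M + u - b), nd M d * (200 * EE d) +
          ∑ s ∈ range (Nat.size M + 1), ns M (JJ u j) s * ((JJ u j + 3 * u + 13) * 2 ^ s)) := by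
      refine hAA.trans ?_
      rw [pow_add, ← Finset.prod_pow_eq_pow_sum, ← Finset.prod_pow_eq_pow_sum]
      refine mul_le_mul (Finset.prod_le_prod (fun d _ => polar_nonneg M u d)
        fun d hd => ?_) (Finset.prod_le_prod (fun s _ => far_nonneg M u (JJ u j) s)
          fun s _ => ?_) (Finset.prod_nonneg fun s _ => far_nonneg M u (JJ u j) s)
        (Finset.prod_nonneg fun s _ => pow_nonneg (by norm_num) _)
      · refine polar_factor M u d ?_
        have h2 := (Finset.mem_Icc.mp hd).1
        unfold JJ at h2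
        omega
      · exact far_factor M u (JJ u j) s
    have h2 : (PP.card : ℝ) ≤ 2 ^ (n0 M j * (12 + 3 * u + 24 * j) +
        (∑ d ∈ Icc (JJ u j) (M + u - b), nd M d * (200 * EE d) +
          ∑ s ∈ range (Nat.size M + 1), ns M (JJ u j) s * ((JJ u j + 3 * u + 13) * 2 ^ s)) +
        r0 M j * (62 + 3 * u + 12 * j)) := by
      refine hPP.trans ?_
      rw [pow_add, pow_add]
      gcongr
    refine h2.trans ?_
    rw [← Real.rpow_natCast]
    refine Real.rpow_le_rpow_of_exponent_le (by norm_num) ?_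
    have h3 := total_num M u j hj huM hjM hM _ _
      (polar_sum M u j (M + u - b) (by omega) hM) (far_sum M u j huM hjM hM)
    refine le_trans (le_of_eq ?_) h3
    push_cast
    ring
  · intro w hK hcol hin
    refine hPP' w hK.1 ?_ ?_
    · -- old values
      intro k hk
      have hk' : k ∈ DD M (j + 1) b (M + u - b) := by
        rw [mem_DD] at hk ⊢
        exact ⟨hk.1.mono (by omega), hk.2.mono (by omega)⟩
      have h1 := hK.2 b u hE.rng hcol k hk'
      rw [max_eq_left (by omega : j0 + Nat.size u ≤ j + 1)] at h1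
      have h2 : TH (j + 1) / 8 ^ M = (8 ^ (8 * (j + 1)) / √((8 : ℝ) ^ M)) ^ 2 := by
        unfold TH
        rw [div_pow, Real.sq_sqrt h8.le, ← pow_mul, show 8 * (j + 1) * 2 = 16 * (j + 1) from by ring]
      rw [h2] at h1
      exact abs_le_of_sq_le_sq' h1 (by positivity) |>.2
    · -- representation
      have hs := hAA' w.g (fun lam => phi lam - co2 (cx w.g) lam)
        (fun η hη => (hin η hη).le) ?_ ?_
      · obtain ⟨e, q, hq, he, hq2⟩ := hs
        exact ⟨e, q, hq, he, hq2⟩
      · -- number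
        have h1 : (univ.filter (fun lam => phi lam - co2 (cx w.g) lam ≠ 0 ∧
            ∃ a ∈ act, lam ∈ DD M (j + 1) b (M + u - a))) ⊆ colm w.Lam b := by
          intro lam hlam
          rw [Finset.mem_filter] at hlam
          obtain ⟨-, h2, a, ha, h3⟩ := hlam
          have h4 : lam ∈ w.Lam := by
            by_contra hcon
            apply h2
            rw [w.spec lam hcon]
            by_contra h5
            rw [sub_zero] at h5
            exact hcon (hK.1 lam h5)
          rw [mem_DD] at h3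
          unfold colm
          simp only [Finset.mem_filter]
          exact ⟨h4, h3.1.gt, h3.1.lt⟩
        have h2 := (Finset.card_le_card h1).trans hcol
        exact_mod_cast h2
      · -- size of the coefficients
        intro a ha lam hlam
        have hRa := hR.rng a ha
        have hga := hE.gap a ha
        have hJ0 : 0 < JJ u j := by
          unfold JJ
          omega
        unfold Rg at hRa
        obtain ⟨ha1, ha2, ha3, ha4⟩ := hRa
        have hRg : Rg M (u + (b - a)) b := by
          unfold Rg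
          refine ⟨hr1, hr2, by omega, ?_⟩
          rw [show M + (u + (b - a)) - b = M + u - a from by omega]
          exact ha4
        have h1 := hK.2 b (u + (b - a)) hRg hcol lam (by
          rw [show M + (u + (b - a)) - b = M + u - a from by omega]
          exact hlam)
        have h2 : max (j + 1) (j0 + Nat.size (u + (b - a))) ≤ j + Nat.size (b - a) := by
          have h3 := size_add_le u (b - a)
          have h4 : 0 < Nat.size (b - a) := Nat.size_pos.mpr (by omega)
          omega
        have h3 : TH (max (j + 1) (j0 + Nat.size (u + (b - a)))) ≤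
            TH (j + Nat.size (b - a)) := by
          unfold TH
          exact pow_le_pow_right₀ (by norm_num) (by omega)
        have h4 : TH (j + Nat.size (b - a)) / 8 ^ M =
            (8 ^ (8 * (j + Nat.size (b - a))) / √((8 : ℝ) ^ M)) ^ 2 := by
          unfold TH
          rw [div_pow, Real.sq_sqrt h8.le, ← pow_mul,
            show 8 * (j + Nat.size (b - a)) * 2 = 16 * (j + Nat.size (b - a)) from by ring]
        have h5 : ‖co2 (cx w.g) lam - phi lam‖ ^ 2 ≤
            (8 ^ (8 * (j + Nat.size (b - a))) / √((8 : ℝ) ^ M)) ^ 2 := by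
          rw [← h4]
          refine h1.trans ?_
          gcongr
        rw [norm_sub_rev]
        exact abs_le_of_sq_le_sq' h5 (by positivity) |>.2

end Pool.Agent.H74.CP
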