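import Pool.Agent.H74.CP.RepCand

/-!
The function of an inactive column: an `L¹` part and a part with few candidates in `L²`
(representation and candidates together).
-/

set_option autoImplicit false

namespace Pool.Agent.H74.CP

open Finset ComplexConjugate H95.CP Pool.Agent.H98.CP Pool.Agent.H74.CM H67.CM

theorem gapLen_eq (J D : ℕ) (hD : 0 < D) : gapLen J D = max J (60 * Nat.size D) := by
  unfold gapLen
  congr 2
  have h1 : Nat.size D = Nat.log 2 D + 1 := by
    apply le_antisymm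
    · rw [Nat.size_le]
      exact Nat.lt_pow_succ_log_self (by norm_num) D
    · rw [Nat.succ_le_iff, Nat.lt_size]
      exact Nat.pow_log_le_self 2 hD.ne'
  omega

theorem sq_norm_two {Mu : Type*} [Fintype Mu] (f g : Mu → ℂ) (s t : ℝ) (hs : 0 ≤ s) (ht : 0 ≤ t)
    (hf : ∑ μ, ‖f μ‖ ^ 2 ≤ s ^ 2) (hg : ∑ μ, ‖g μ‖ ^ 2 ≤ t ^ 2) :
    ∑ μ, ‖f μ + g μ‖ ^ 2 ≤ (s + t) ^ 2 := by
  have h := l2_sum_le (Finset.univ : Finset Bool) (fun i => if i then f else g)
    (fun i => if i then s else t) (by intro i _; cases i <;> simpa)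
    (by intro i _; cases i <;> simpa)
  simpa [Fintype.sum_bool] using h

open scoped Classical in
/-- Representation and candidates. -/
theorem rep_cand (hA : StAtom) (hW : StWl) {M u j J l0 sg : ℕ} {act : Finset ℕ}
    {h : ℕ → G M → ℝ} {b : ℕ}
    (hR : RS M u j J l0 sg act h) (hL : Lg M j) (hJ : Jok j J l0) (hE : Elg M u J l0 act b)
    (B Q : ℝ) (hB : 0 < B) (hQ : 0 < Q) (rho : ℕ → ℝ) (hrho : ∀ s, 0 < rho s) (nd ns : ℕ → ℕ)
    (hnd : ∀ d, 0 < nd d) (hns : ∀ s, 0 < ns s) (td ts : ℕ → ℝ) (htd : ∀ d, 0 ≤ td d)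
    (hts : ∀ s, 0 ≤ ts s)
    (h1 : ∀ d ∈ Icc J (M + u - b),
      4 * (B * 2 ^ d / 8 ^ sg) ^ 2 * 8 ^ (M + u - d) / nd d ≤ td d ^ 2)
    (h2 : ∀ s ∈ range (Nat.size M + 1), 4 * (Q * rho s) ^ 2 *
      (64 * CV j * 8 ^ sg / 2 ^ (max J (60 * s))) ^ 2 / ns s ≤ ts s ^ 2) :
    ∃ AA : Finset (Gr (b + 1) (M + u - b + 1) → ℂ),
      (AA.card : ℝ) ≤ (∏ d ∈ Icc J (M + u - b),
          (Real.exp 1 * (4 * (24576 * 8 ^ (M + u + EE d)) + 1 + nd d) / nd d) ^ nd d) *
        ∏ s ∈ range (Nat.size M + 1),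
          (Real.exp 1 * (4 * (6 * 8 ^ (M + u + 2 ^ s)) + 1 + ns s) / ns s) ^ ns s ∧
      ∀ (F : G M → ℝ) (r : G M → ℂ),
        (∀ η, Adm j b (M + u - b) J sg (Psi h b) η → tst j b (M + u - b) (Psi h b) F η ≤ B) →
        ((univ.filter (fun lam => r lam ≠ 0 ∧
          ∃ a ∈ act, lam ∈ DD M (j + 1) b (M + u - a))).card : ℝ) ≤ Q →
        (∀ a ∈ act, ∀ lam ∈ DD M (j + 1) b (M + u - a), ‖r lam‖ ≤ rho (Nat.size (b - a))) →
        ∃ e : Gr (b + 1) (M + u - b + 1) → ℝ, ∃ q ∈ AA, avgR _ _ (fun y => |e y|) ≤ B ∧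
          avgR _ _ (fun y => ‖loc j b (M + u - b) (cx (fun x => F x * Psi h b x)) (pt _ _ y) +
              (∑ lam, r lam * wl j b (M + u - b) (Psi h b) lam (pt _ _ y)) - e y - q y‖ ^ 2) ≤
            (∑ d ∈ Icc J (M + u - b), td d + ∑ s ∈ range (Nat.size M + 1), ts s) ^ 2 := by
  classical
  have hrng := hE.rng
  unfold Rg at hrng
  set c := M + u - b with hc
  have hcM : c ≤ M := by omega
  have hbM : b ≤ M := by omega
  have hJ0 : 0 < J := by
    have := hJ.2.2
    omega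
  have hlt : ∀ a ∈ act, a < b := fun a ha => by
    have := hE.gap a ha
    omega
  set Ψ := Psi h b with hΨ
  -- the atoms
  have hex : ∀ V, V + J ≤ c → ∀ (w : ZMod (LL M)) (p : Gr (b + 2) (V + 2)),
      ∃ Φ : G M → ℂ,
        (∀ η : Gr (b + 1) (c + 1) → ℝ,
          strip V w (cx (fun x => Ψ x * hh j b c η x)) (pt _ _ p)
            = avg _ _ (fun y => (η y : ℂ) * Φ (pt (b + 1) (c + 1) y))) ∧
        (∀ k, co2 Φ k ≠ 0 → Half j b (fa k.1) ∧ Half j c (fa k.2)) ∧
        ∑ k, ‖co2 Φ k‖ ^ 2 ≤ 8 ^ (b + V) := by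
    intro V hV w p
    exact hA M u j J l0 sg act h b hR hL hJ hE V hV w p
  choose! Φ hΦ1 hΦ2 hΦ3 using hex
  set YY : ℝ := ((8 ^ (b + 1) : ℕ) : ℝ) * ((8 ^ (c + 1) : ℕ) : ℝ) with hYY
  have hYY0 : 0 < YY := by
    rw [hYY]
    positivity
  have hsq : √YY ^ 2 = YY := Real.sq_sqrt hYY0.le
  -- polar part
  obtain ⟨A1, hA1, hA1'⟩ := parts_code (Mu := Gr (b + 1) (c + 1)) (Icc J c)
    (fun d => PJ M b c d) (fun d α y => ((rat Φ d α y : ℝ) : ℂ))
    (fun d => B * 2 ^ d / 8 ^ sg) (fun d => YY * 8 ^ (M + u - d)) nd (fun d => √YY * td d)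
    (fun d _ => by positivity) (fun d _ => by positivity)
    (by
      intro d hd α
      obtain ⟨hd1, hd2⟩ := Finset.mem_Icc.mp hd
      refine rat_L2 hbM hcM Φ d α (hΦ2 (c - d) (by omega) α.1.1 α.2.1) _ ?_
      refine (hΦ3 (c - d) (by omega) α.1.1 α.2.1).trans (le_of_eq ?_)
      congr 1
      omega)
    (fun d _ => hnd d) (fun d _ => mul_nonneg (Real.sqrt_nonneg _) (htd d))
    (by
      intro d hd
      rw [mul_pow, hsq]
      have := mul_le_mul_of_nonneg_left (h1 d hd) hYY0.le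
      refine le_trans (le_of_eq ?_) this
      ring)
  -- far part
  set P : G M → Prop := fun lam => ∃ a ∈ act, lam ∈ DD M (j + 1) b (M + u - a) with hP
  set σ : G M → ℕ := fun lam => if hl : P lam then Nat.size (b - hl.choose) else 0 with hσ
  set T : Finset (G M) := univ.filter P with hT
  set FS : ℕ → Finset (G M) := fun s => T.filter (fun lam => σ lam = s) with hFS
  have hFSm : ∀ s, ∀ lam ∈ FS s, ∃ a ∈ act, lam ∈ DD M (j + 1) b (M + u - a) ∧
      Nat.size (b - a) = s := by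
    intro s lam hlam
    simp only [hFS, hT] at hlam
    rw [Finset.mem_filter, Finset.mem_filter] at hlam
    have hl : P lam := hlam.1.2
    have h3 := hlam.2
    simp only [hσ] at h3
    rw [dif_pos hl] at h3
    exact ⟨hl.choose, hl.choose_spec.1, hl.choose_spec.2, h3⟩
  have hwb : ∀ s, ∀ lam ∈ FS s, ∀ x, ‖wl j b c Ψ lam x‖ ≤
      64 * CV j * 8 ^ sg / 2 ^ (max J (60 * s)) := by
    intro s lam hlam x
    obtain ⟨a, ha, hDa, hsa⟩ := hFSm s lam hlam
    rcases hW M u j J l0 sg act h b hR hL hJ hE lam with h3 | ⟨a', ha', hDa', h3⟩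
    · rw [h3 x, norm_zero]
      have := (CV_pos j).le
      positivity
    · have h4 := DD_unique hDa hDa'
      have h5 := hlt a ha
      have h6 := hlt a' ha'
      have h7 : a = a' := by omega
      subst h7
      rw [gapLen_eq J (b - a) (by omega), hsa] at h3
      exact h3 x
  obtain ⟨A2, hA2, hA2'⟩ := parts_code (Mu := Gr (b + 1) (c + 1)) (range (Nat.size M + 1))
    (fun s => ↥(FS s)) (fun s lam y => wl j b c Ψ lam.1 (pt (b + 1) (c + 1) y))
    (fun s => Q * rho s) (fun s => YY * (64 * CV j * 8 ^ sg / 2 ^ (max J (60 * s))) ^ 2) ns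
    (fun s => √YY * ts s)
    (fun s _ => mul_pos hQ (hrho s)) (fun s _ => by positivity)
    (by
      intro s _ lam
      have h3 : ∀ y : Gr (b + 1) (c + 1), ‖wl j b c Ψ lam.1 (pt (b + 1) (c + 1) y)‖ ^ 2 ≤
          (64 * CV j * 8 ^ sg / 2 ^ (max J (60 * s))) ^ 2 := fun y =>
        pow_le_pow_left₀ (norm_nonneg _) (hwb s lam.1 lam.2 _) 2
      refine (Finset.sum_le_sum fun y _ => h3 y).trans (le_of_eq ?_)
      rw [Finset.sum_const, Finset.card_univ, Fintype.card_prod, Fintype.card_fin,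
        Fintype.card_fin, nsmul_eq_mul, hYY]
      push_cast
      ring)
    (fun s _ => hns s) (fun s _ => mul_nonneg (Real.sqrt_nonneg _) (hts s))
    (by
      intro s hs
      rw [mul_pow (√YY) (ts s) 2, hsq]
      have := mul_le_mul_of_nonneg_left (h2 s hs) hYY0.le
      refine le_trans (le_of_eq ?_) this
      ring)
  refine ⟨(A1 ×ˢ A2).image (fun x y => x.1 y + x.2 y), ?_, ?_⟩
  · have h3 : (((A1 ×ˢ A2).image (fun x y => x.1 y + x.2 y)).card : ℝ) ≤
        (A1.card : ℝ) * (A2.card : ℝ) := by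
      have := Finset.card_image_le (s := A1 ×ˢ A2)
        (f := fun (x : (Gr (b + 1) (c + 1) → ℂ) × (Gr (b + 1) (c + 1) → ℂ)) y => x.1 y + x.2 y)
      rw [Finset.card_product] at this
      exact_mod_cast this
    refine h3.trans ?_
    refine mul_le_mul (hA1.trans ?_) (hA2.trans ?_) (Nat.cast_nonneg _) ?_
    · refine Finset.prod_le_prod (fun d _ => by positivity) fun d hd => ?_
      obtain ⟨hd1, hd2⟩ := Finset.mem_Icc.mp hd
      have h4 := card_PJ (M := M) (u := u) (b := b) (c := c) (d := d) hc (by omega) hcM hd2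
      have h5 : (0 : ℝ) < nd d := by exact_mod_cast hnd d
      refine pow_le_pow_left₀ (by positivity) ?_ _
      gcongr
    · refine Finset.prod_le_prod (fun d _ => by positivity) fun s _ => ?_
      have h4 := card_far (M := M) (u := u) (j := j) (b := b) (s := s) act
        (fun a ha => (hlt a ha).le) (by omega) (FS s) (hFSm s)
      have h5 : (0 : ℝ) < ns s := by exact_mod_cast hns s
      refine pow_le_pow_left₀ (by positivity) ?_ _
      rw [Fintype.card_coe]
      gcongr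
    · positivity
  · intro F r hF hrQ hrr
    obtain ⟨e, a, he1, he2, ha⟩ := rep (J := J) (sg := sg) Ψ Φ hΦ1 F B hF
    obtain ⟨q1, hq1, hq1'⟩ := hA1' (fun d α => ((a d α : ℝ) : ℂ)) (by
      intro d hd
      have h3 : ∑ α : PJ M b c d, ‖((a d α : ℝ) : ℂ)‖ = ∑ α : PJ M b c d, |a d α| := by
        refine Finset.sum_congr rfl fun α _ => ?_
        rw [Complex.norm_real, Real.norm_eq_abs]
      rw [h3]
      exact ha d hd)
    obtain ⟨q2, hq2, hq2'⟩ := hA2' (fun s lam => r lam.1) (by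
      intro s _
      have h3 : ∑ lam : ↥(FS s), ‖r lam.1‖ = ∑ lam ∈ FS s, ‖r lam‖ :=
        Finset.sum_coe_sort (FS s) (fun lam => ‖r lam‖)
      rw [h3]
      have h4 : ∑ lam ∈ FS s, ‖r lam‖ = ∑ lam ∈ (FS s).filter (fun lam => r lam ≠ 0), ‖r lam‖ := by
        symm
        refine Finset.sum_subset (Finset.filter_subset _ _) fun lam hl hl' => ?_
        rw [Finset.mem_filter, not_and, not_not] at hl'
        rw [hl' hl, norm_zero]
      rw [h4]
      have h5 : ∀ lam ∈ (FS s).filter (fun lam => r lam ≠ 0), ‖r lam‖ ≤ rho s := by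
        intro lam hl
        obtain ⟨a', ha', hD, hs⟩ := hFSm s lam (Finset.mem_filter.mp hl).1
        have := hrr a' ha' lam hD
        rwa [hs] at this
      refine (Finset.sum_le_sum h5).trans ?_
      rw [Finset.sum_const, nsmul_eq_mul]
      refine mul_le_mul_of_nonneg_right ?_ (hrho s).le
      refine le_trans ?_ hrQ
      have h6 : (FS s).filter (fun lam => r lam ≠ 0) ⊆ univ.filter (fun lam => r lam ≠ 0 ∧
          ∃ a ∈ act, lam ∈ DD M (j + 1) b (M + u - a)) := by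
        intro lam hl
        rw [Finset.mem_filter] at hl ⊢
        obtain ⟨a', ha', hD, hs⟩ := hFSm s lam hl.1
        exact ⟨Finset.mem_univ _, hl.2, a', ha', hD⟩
      exact_mod_cast Finset.card_le_card h6)
    refine ⟨e, fun y => q1 y + q2 y, Finset.mem_image.mpr
      ⟨(q1, q2), Finset.mem_product.mpr ⟨hq1, hq2⟩, rfl⟩, he2, ?_⟩
    -- the far sum
    have hfar : ∀ y : Gr (b + 1) (c + 1),
        ∑ lam, r lam * wl j b c Ψ lam (pt (b + 1) (c + 1) y) =
        ∑ s ∈ range (Nat.size M + 1), ∑ lam : ↥(FS s),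
          r lam.1 * wl j b c Ψ lam.1 (pt (b + 1) (c + 1) y) := by
      intro y
      have h3 : ∀ s, ∑ lam : ↥(FS s), r lam.1 * wl j b c Ψ lam.1 (pt (b + 1) (c + 1) y) =
          ∑ lam ∈ T.filter (fun lam => σ lam = s),
            r lam * wl j b c Ψ lam (pt (b + 1) (c + 1) y) := fun s =>
        Finset.sum_coe_sort (FS s) (fun lam => r lam * wl j b c Ψ lam (pt (b + 1) (c + 1) y))
      simp_rw [h3]
      rw [Finset.sum_fiberwise_of_maps_to (s := T) (t := range (Nat.size M + 1)) (g := σ)]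
      · symm
        refine Finset.sum_subset (Finset.subset_univ _) fun lam _ hl => ?_
        rcases hW M u j J l0 sg act h b hR hL hJ hE lam with h4 | ⟨a', ha', hDa', -⟩
        · have h4' := h4 (pt (b + 1) (c + 1) y)
          rw [h4', mul_zero]
        · exact absurd (Finset.mem_filter.mpr ⟨Finset.mem_univ _, a', ha', hDa'⟩) hl
      · intro lam hl
        rw [Finset.mem_range]
        simp only [hσ]
        split_ifs with h4
        · have h5 : Nat.size (b - h4.choose) ≤ Nat.size M := Nat.size_le_size (by omega)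
          omega
        · omega
    have h3 := sq_norm_two
      (fun y => (∑ d ∈ Icc J c, ∑ α : PJ M b c d,
        ((a d α : ℝ) : ℂ) * ((rat Φ d α y : ℝ) : ℂ)) - q1 y)
      (fun y => (∑ s ∈ range (Nat.size M + 1), ∑ lam : ↥(FS s),
          r lam.1 * wl j b c Ψ lam.1 (pt (b + 1) (c + 1) y)) - q2 y)
      (∑ d ∈ Icc J c, √YY * td d) (∑ s ∈ range (Nat.size M + 1), √YY * ts s)
      (Finset.sum_nonneg fun d _ => mul_nonneg (Real.sqrt_nonneg _) (htd d))
      (Finset.sum_nonneg fun d _ => mul_nonneg (Real.sqrt_nonneg _) (hts d)) hq1' hq2'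
    rw [← Finset.mul_sum, ← Finset.mul_sum, ← mul_add, mul_pow, hsq] at h3
    have h4 : avgR (8 ^ (b + 1)) (8 ^ (c + 1)) (fun y =>
        ‖loc j b c (cx (fun x => F x * Ψ x)) (pt (b + 1) (c + 1) y) +
              (∑ lam, r lam * wl j b c Ψ lam (pt (b + 1) (c + 1) y)) - e y -
                (q1 y + q2 y)‖ ^ 2) =
        (1 / YY) * ∑ y, ‖((∑ d ∈ Icc J c, ∑ α : PJ M b c d,
        ((a d α : ℝ) : ℂ) * ((rat Φ d α y : ℝ) : ℂ)) - q1 y) +
          ((∑ s ∈ range (Nat.size M + 1), ∑ lam : ↥(FS s),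
          r lam.1 * wl j b c Ψ lam.1 (pt (b + 1) (c + 1) y)) - q2 y)‖ ^ 2 := by
      unfold avgR
      rw [← hYY]
      congr 1
      refine Finset.sum_congr rfl fun y _ => ?_
      show ‖loc j b c (cx (fun x => F x * Ψ x)) (pt (b + 1) (c + 1) y) +
              (∑ lam, r lam * wl j b c Ψ lam (pt (b + 1) (c + 1) y)) - e y -
                (q1 y + q2 y)‖ ^ 2 = _
      rw [he1 y, hfar y]
      congr 2
      push_cast
      ring
    rw [h4]
    calc (1 / YY) * _ ≤ (1 / YY) * (YY * (∑ d ∈ Icc J c, td d +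
          ∑ s ∈ range (Nat.size M + 1), ts s) ^ 2) :=
          mul_le_mul_of_nonneg_left h3 (by positivity)
      _ = _ := by
          field_simp

end Pool.Agent.H74.CP
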