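import Pool.Agent.H98.CP.St

/-!
Numbers of frequencies, of strip constraints.
-/

set_option autoImplicit false

namespace Pool.Agent.H74.CP

open Finset ComplexConjugate H95.CP Pool.Agent.H98.CP

open scoped Classical in
theorem mem_DD {M j b c : ℕ} {k : G M} :
    k ∈ DD M j b c ↔ Band j b (fa k.1) ∧ Band j c (fa k.2) := by
  unfold DD
  rw [Finset.mem_filter]
  simp

theorem fa_lt_of_mem_DD {M j b c : ℕ} {k : G M} (hk : k ∈ DD M j b c) :
    fa k.1 < 3 * 8 ^ b ∧ fa k.2 < 3 * 8 ^ c := by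
  rw [mem_DD] at hk
  exact ⟨hk.1.lt, hk.2.lt⟩

theorem card_DD (M j b c : ℕ) : (DD M j b c).card ≤ 36 * 8 ^ (b + c) := by
  classical
  have h1 : DD M j b c ⊆ (univ.filter (fun k : ZMod (LL M) => fa k < 3 * 8 ^ b)) ×ˢ
      (univ.filter (fun k : ZMod (LL M) => fa k < 3 * 8 ^ c)) := by
    intro k hk
    obtain ⟨h2, h3⟩ := fa_lt_of_mem_DD hk
    rw [Finset.mem_product, Finset.mem_filter, Finset.mem_filter]
    exact ⟨⟨Finset.mem_univ _, h2⟩, ⟨Finset.mem_univ _, h3⟩⟩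
  refine (Finset.card_le_card h1).trans ?_
  rw [Finset.card_product]
  refine (Nat.mul_le_mul (card_fa_lt (L := LL M) (3 * 8 ^ b))
    (card_fa_lt (L := LL M) (3 * 8 ^ c))).trans (le_of_eq ?_)
  rw [pow_add]
  ring

theorem DD_unique {M j b c c' : ℕ} {k : G M} (h : k ∈ DD M j b c) (h' : k ∈ DD M j b c') :
    c = c' := by
  rw [mem_DD] at h h'
  have a1 := h.2.gt
  have a2 := h.2.lt
  have b1 := h'.2.gt
  have b2 := h'.2.lt
  rcases lt_trichotomy c c' with hlt | heq | hlt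
  · exfalso
    have h3 : 8 ^ (c + 1) ≤ 8 ^ c' := Nat.pow_le_pow_right (by norm_num) hlt
    rw [pow_succ] at h3
    omega
  · exact heq
  · exfalso
    have h3 : 8 ^ (c' + 1) ≤ 8 ^ c := Nat.pow_le_pow_right (by norm_num) hlt
    rw [pow_succ] at h3
    omega

theorem sum_pow8 (n : ℕ) : ∑ D ∈ range n, 8 ^ D ≤ (8 ^ n - 1) / 7 := by
  induction n with
  | zero => simp
  | succ n ih =>
    rw [Finset.sum_range_succ, pow_succ]
    have : 1 ≤ 8 ^ n := Nat.one_le_pow _ _ (by norm_num)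
    omega

/-- the number of far frequencies of size `s` -/
theorem card_far {M u j b s : ℕ} (act : Finset ℕ) (hact : ∀ a ∈ act, a ≤ b) (hb : b ≤ M + u)
    (S : Finset (G M))
    (hS : ∀ lam ∈ S, ∃ a ∈ act, lam ∈ DD M (j + 1) b (M + u - a) ∧ Nat.size (b - a) = s) :
    (S.card : ℝ) ≤ 6 * 8 ^ (M + u + 2 ^ s) := by
  classical
  have h1 : S ⊆ (range (2 ^ s)).biUnion (fun D => DD M (j + 1) b (M + u - b + D)) := by
    intro lam hlam
    obtain ⟨a, ha, h2, h3⟩ := hS lam hlam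
    rw [Finset.mem_biUnion]
    refine ⟨b - a, ?_, ?_⟩
    · rw [Finset.mem_range, ← h3]
      exact Nat.lt_size_self _
    · have := hact a ha
      rwa [show M + u - b + (b - a) = M + u - a from by omega]
  have h2 : S.card ≤ ∑ D ∈ range (2 ^ s), 36 * 8 ^ (b + (M + u - b + D)) :=
    (Finset.card_le_card h1).trans (Finset.card_biUnion_le.trans
      (Finset.sum_le_sum fun D _ => card_DD _ _ _ _))
  have h3 : ∀ D, 36 * 8 ^ (b + (M + u - b + D)) = 36 * 8 ^ (M + u) * 8 ^ D := by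
    intro D
    rw [show b + (M + u - b + D) = M + u + D from by omega, pow_add]
    ring
  simp_rw [h3] at h2
  rw [← Finset.mul_sum] at h2
  have h4 := sum_pow8 (2 ^ s)
  have h5 : S.card ≤ 36 * 8 ^ (M + u) * ((8 ^ (2 ^ s) - 1) / 7) :=
    h2.trans (Nat.mul_le_mul_left _ h4)
  have h6 : 36 * 8 ^ (M + u) * ((8 ^ (2 ^ s) - 1) / 7) ≤ 6 * 8 ^ (M + u + 2 ^ s) := by
    rw [pow_add 8 (M + u) (2 ^ s)]
    have h7 : 36 * ((8 ^ (2 ^ s) - 1) / 7) ≤ 6 * 8 ^ (2 ^ s) := by omega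
    calc 36 * 8 ^ (M + u) * ((8 ^ (2 ^ s) - 1) / 7) =
        8 ^ (M + u) * (36 * ((8 ^ (2 ^ s) - 1) / 7)) := by ring
      _ ≤ 8 ^ (M + u) * (6 * 8 ^ (2 ^ s)) := Nat.mul_le_mul_left _ h7
      _ = _ := by ring
  exact_mod_cast h5.trans h6

open scoped Classical in
/-- the finset of the frequencies of the strip constraints -/
noncomputable def WF (M c V : ℕ) : Finset (ZMod (LL M)) := univ.filter (fun w => WS c V w)

open scoped Classical in
theorem mem_WF {M c V : ℕ} {w : ZMod (LL M)} : w ∈ WF M c V ↔ WS c V w := by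
  unfold WF
  rw [Finset.mem_filter]
  simp

theorem card_WF {M c V : ℕ} (hV : V ≤ c) (hc : c ≤ M) :
    (WF M c V).card ≤ 3 * 8 ^ (c - V + EE (c - V)) := by
  classical
  set K : ℕ := 8 ^ (c - V + EE (c - V)) with hK
  have hK1 : 1 ≤ K := Nat.one_le_pow _ _ (by norm_num)
  have h8 : (0 : ℤ) < 8 ^ V := by positivity
  have hdvd : ∀ w ∈ WF M c V, (8 ^ V : ℤ) ∣ w.valMinAbs ∧ |w.valMinAbs| ≤ 8 ^ V * K := by
    intro w hw
    rw [mem_WF] at hw
    obtain ⟨⟨i, hi⟩, h2⟩ := hw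
    constructor
    · have h3 : ((w.valMinAbs - (i * 8 ^ V : ℕ) : ℤ) : ZMod (LL M)) = 0 := by
        rw [Int.cast_sub, ZMod.coe_valMinAbs, Int.cast_natCast, ← hi, sub_self]
      rw [ZMod.intCast_zmod_eq_zero_iff_dvd] at h3
      have h4 : (8 ^ V : ℤ) ∣ ((LL M : ℕ) : ℤ) := by
        have : 8 ^ V ∣ LL M := Nat.pow_dvd_pow 8 (by omega)
        exact_mod_cast this
      have h5 := h4.trans h3
      have h6 : (8 ^ V : ℤ) ∣ ((i * 8 ^ V : ℕ) : ℤ) := by
        push_cast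
        exact Dvd.intro_left _ rfl
      have h7 := dvd_add h5 h6
      rwa [sub_add_cancel] at h7
    · have h3 : (w.valMinAbs.natAbs : ℤ) ≤ ((8 ^ (c + EE (c - V)) : ℕ) : ℤ) := by
        exact_mod_cast h2
      rw [Int.natCast_natAbs] at h3
      refine h3.trans (le_of_eq ?_)
      rw [hK]
      push_cast
      rw [← pow_add]
      congr 1
      omega
  have h1 : (WF M c V).card ≤ (Finset.Icc (-(K : ℤ)) K).card := by
    refine Finset.card_le_card_of_injOn (fun w => w.valMinAbs / 8 ^ V) ?_ ?_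
    · intro w hw
      rw [Finset.mem_coe] at hw
      obtain ⟨⟨q, hq⟩, h3⟩ := hdvd w hw
      rw [Finset.mem_coe, Finset.mem_Icc]
      show -(K : ℤ) ≤ w.valMinAbs / 8 ^ V ∧ w.valMinAbs / 8 ^ V ≤ (K : ℤ)
      rw [hq, Int.mul_ediv_cancel_left _ h8.ne']
      rw [hq, abs_mul, abs_of_pos h8] at h3
      have h4 : |q| ≤ (K : ℤ) := le_of_mul_le_mul_left h3 h8
      exact abs_le.mp h4
    · intro w hw w' hw' hww
      rw [Finset.mem_coe] at hw hw'
      obtain ⟨⟨q, hq⟩, -⟩ := hdvd w hw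
      obtain ⟨⟨q', hq'⟩, -⟩ := hdvd w' hw'
      apply ZMod.injective_valMinAbs
      have h5 : w.valMinAbs / 8 ^ V = w'.valMinAbs / 8 ^ V := hww
      rw [hq, hq', Int.mul_ediv_cancel_left _ h8.ne', Int.mul_ediv_cancel_left _ h8.ne'] at h5
      rw [hq, hq', h5]
  refine h1.trans ?_
  rw [Int.card_Icc]
  omega

/-- the index type of the polar atoms of scale `d` -/
abbrev PJ (M b c d : ℕ) : Type := ↥(WF M c (c - d)) × Gr (b + 2) (c - d + 2) × Bool

theorem card_PJ {M u b c d : ℕ} (hc : c = M + u - b) (hb : b ≤ M + u) (hcM : c ≤ M)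
    (hd : d ≤ c) : (Fintype.card (PJ M b c d) : ℝ) ≤ 24576 * 8 ^ (M + u + EE d) := by
  have h1 : Fintype.card (PJ M b c d) =
      (WF M c (c - d)).card * (8 ^ (b + 2) * 8 ^ (c - d + 2) * 2) := by
    rw [Fintype.card_prod, Fintype.card_prod, Fintype.card_prod, Fintype.card_coe,
      Fintype.card_fin, Fintype.card_fin, Fintype.card_bool]
  have h2 := card_WF (M := M) (c := c) (V := c - d) (by omega) hcM
  rw [show c - (c - d) = d from by omega] at h2
  have h3 : Fintype.card (PJ M b c d) ≤ 24576 * 8 ^ (M + u + EE d) := by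
    rw [h1]
    refine (Nat.mul_le_mul_right _ h2).trans (le_of_eq ?_)
    have h4 : 8 ^ (M + u + EE d) = 8 ^ d * 8 ^ (EE d) * 8 ^ b * 8 ^ (c - d) := by
      rw [← pow_add, ← pow_add, ← pow_add]
      congr 1
      omega
    rw [h4, pow_add 8 d, pow_add 8 b, pow_add 8 (c - d)]
    ring
  exact_mod_cast h3

end Pool.Agent.H74.CP
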