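import Pool.Agent.H98.CP.St

/-!
Numerical inequalities for an inactive column.
-/

set_option autoImplicit false

namespace Pool.Agent.H74.CP

open Finset Pool.Agent.H98.CP

/-- one factor of a count -/
theorem pow_count (n κ : ℕ) (X : ℝ) (hn : 0 < n) (hX : 0 ≤ X) (h : X + 1 ≤ n * 2 ^ κ) :
    (Real.exp 1 * (X + 1 + n) / n) ^ n ≤ 2 ^ (n * (κ + 3)) := by
  have hn' : (0 : ℝ) < n := by exact_mod_cast hn
  have h1 : Real.exp 1 * (X + 1 + n) / n ≤ 2 ^ (κ + 3) := by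
    rw [div_le_iff₀ hn']
    have he : Real.exp 1 ≤ 4 := by
      have := Real.exp_one_lt_d9
      linarith
    have h2 : X + 1 + n ≤ 2 * (n * 2 ^ κ) := by
      have h3 : (1 : ℝ) ≤ 2 ^ κ := one_le_pow₀ (by norm_num)
      nlinarith
    calc Real.exp 1 * (X + 1 + n) ≤ 4 * (2 * (n * 2 ^ κ)) :=
          mul_le_mul he h2 (by positivity) (by norm_num)
      _ = 2 ^ (κ + 3) * n := by rw [pow_add]; ring
  calc (Real.exp 1 * (X + 1 + n) / n) ^ n ≤ (2 ^ (κ + 3)) ^ n :=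
        pow_le_pow_left₀ (by positivity) h1 n
    _ = 2 ^ (n * (κ + 3)) := by rw [← pow_mul, mul_comm]

/-- number of samples of the polar scale `d` -/
noncomputable def nd (M d : ℕ) : ℕ := ⌊(8 : ℝ) ^ M * (3 / 4) ^ d⌋₊ + 1

/-- number of samples of the far scale `s` -/
noncomputable def ns (M J s : ℕ) : ℕ := ⌊(8 : ℝ) ^ M * (3 / 4) ^ J * (1 / 4) ^ s⌋₊ + 1

theorem nd_pos (M d : ℕ) : 0 < nd M d := Nat.succ_pos _

theorem ns_pos (M J s : ℕ) : 0 < ns M J s := Nat.succ_pos _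

theorem nd_ge (M d : ℕ) : (8 : ℝ) ^ M * (3 / 4) ^ d ≤ nd M d := by
  unfold nd
  push_cast
  exact (Nat.lt_floor_add_one _).le

theorem nd_le (M d : ℕ) : (nd M d : ℝ) ≤ (8 : ℝ) ^ M * (3 / 4) ^ d + 1 := by
  unfold nd
  push_cast
  have := Nat.floor_le (by positivity : (0 : ℝ) ≤ (8 : ℝ) ^ M * (3 / 4) ^ d)
  linarith

theorem ns_ge (M J s : ℕ) : (8 : ℝ) ^ M * (3 / 4) ^ J * (1 / 4) ^ s ≤ ns M J s := by
  unfold ns
  push_cast
  exact (Nat.lt_floor_add_one _).le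

theorem ns_le (M J s : ℕ) : (ns M J s : ℝ) ≤ (8 : ℝ) ^ M * (3 / 4) ^ J * (1 / 4) ^ s + 1 := by
  unfold ns
  push_cast
  have := Nat.floor_le (by positivity : (0 : ℝ) ≤ (8 : ℝ) ^ M * (3 / 4) ^ J * (1 / 4) ^ s)
  linarith

theorem half_pow_le (n : ℕ) : (1 / 2 : ℝ) ^ n ≤ (3 / 4) ^ n :=
  pow_le_pow_left₀ (by norm_num) (by norm_num) n

theorem le_EE (d : ℕ) : d + 60 ≤ 120 * EE d := by
  unfold EE
  have h1 : d / 60 < 2 ^ (d / 60) := Nat.lt_two_pow_self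
  omega

theorem EE_pos (d : ℕ) : 1 ≤ EE d := Nat.one_le_two_pow

/-- polar factor -/
theorem polar_factor (M u d : ℕ) (hu : 300 * u ≤ d) :
    (Real.exp 1 * (4 * (24576 * 8 ^ (M + u + EE d)) + 1 + nd M d) / nd M d) ^ nd M d ≤
      (2 : ℝ) ^ (nd M d * (200 * EE d)) := by
  have h1 := pow_count (nd M d) (17 + 3 * (u + EE d) + d) (4 * (24576 * 8 ^ (M + u + EE d)))
    (nd_pos M d) (by positivity) (by
      have h2 := nd_ge M d
      have h3 := half_pow_le d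
      have h4 : (8 : ℝ) ^ M * (1 / 2) ^ d ≤ nd M d :=
        (mul_le_mul_of_nonneg_left h3 (by positivity)).trans h2
      have h5 : (1 : ℝ) ≤ 8 ^ (M + u + EE d) := one_le_pow₀ (by norm_num)
      have h6 : (2 : ℝ) ^ (17 + 3 * (u + EE d) + d) = 131072 * 8 ^ (u + EE d) * 2 ^ d := by
        rw [pow_add, pow_add, pow_mul]
        norm_num
      have h7 : (8 : ℝ) ^ M * (1 / 2) ^ d * (131072 * 8 ^ (u + EE d) * 2 ^ d) =
          131072 * 8 ^ (M + u + EE d) := by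
        have h8 : (1 / 2 : ℝ) ^ d * 2 ^ d = 1 := by rw [← mul_pow]; norm_num
        calc (8 : ℝ) ^ M * (1 / 2) ^ d * (131072 * 8 ^ (u + EE d) * 2 ^ d) =
            131072 * (8 ^ M * 8 ^ (u + EE d)) * ((1 / 2 : ℝ) ^ d * 2 ^ d) := by ring
          _ = 131072 * 8 ^ (M + u + EE d) := by rw [h8, ← pow_add, ← add_assoc, mul_one]
      rw [h6]
      refine le_trans ?_ (mul_le_mul_of_nonneg_right h4 (by positivity))
      rw [h7]
      linarith)
  refine h1.trans (pow_le_pow_right₀ (by norm_num) (Nat.mul_le_mul_left _ ?_))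
  have h2 := le_EE d
  have h3 := EE_pos d
  omega

/-- far factor -/
theorem far_factor (M u J s : ℕ) :
    (Real.exp 1 * (4 * (6 * 8 ^ (M + u + 2 ^ s)) + 1 + ns M J s) / ns M J s) ^ ns M J s ≤
      (2 : ℝ) ^ (ns M J s * ((J + 3 * u + 13) * 2 ^ s)) := by
  have h1 := pow_count (ns M J s) (5 + 3 * (u + 2 ^ s) + J + 2 * s) (4 * (6 * 8 ^ (M + u + 2 ^ s)))
    (ns_pos M J s) (by positivity) (by
      have h2 := ns_ge M J s
      have h3 := half_pow_le J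
      have h4 : (8 : ℝ) ^ M * (1 / 2) ^ J * (1 / 4) ^ s ≤ ns M J s := by
        refine le_trans ?_ h2
        gcongr
      have h5 : (1 : ℝ) ≤ 8 ^ (M + u + 2 ^ s) := one_le_pow₀ (by norm_num)
      have h6 : (2 : ℝ) ^ (5 + 3 * (u + 2 ^ s) + J + 2 * s) =
          32 * 8 ^ (u + 2 ^ s) * 2 ^ J * 4 ^ s := by
        rw [pow_add, pow_add, pow_add, pow_mul, pow_mul]
        norm_num
      have h7 : (8 : ℝ) ^ M * (1 / 2) ^ J * (1 / 4) ^ s *
          (32 * 8 ^ (u + 2 ^ s) * 2 ^ J * 4 ^ s) = 32 * 8 ^ (M + u + 2 ^ s) := by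
        have h8 : (1 / 2 : ℝ) ^ J * 2 ^ J = 1 := by rw [← mul_pow]; norm_num
        have h9 : (1 / 4 : ℝ) ^ s * 4 ^ s = 1 := by rw [← mul_pow]; norm_num
        calc (8 : ℝ) ^ M * (1 / 2) ^ J * (1 / 4) ^ s *
            (32 * 8 ^ (u + 2 ^ s) * 2 ^ J * 4 ^ s) =
            32 * (8 ^ M * 8 ^ (u + 2 ^ s)) * ((1 / 2 : ℝ) ^ J * 2 ^ J) *
              ((1 / 4 : ℝ) ^ s * 4 ^ s) := by ring
          _ = 32 * 8 ^ (M + u + 2 ^ s) := by rw [h8, h9, ← pow_add, ← add_assoc]; ring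
      rw [h6]
      refine le_trans ?_ (mul_le_mul_of_nonneg_right h4 (by positivity))
      rw [h7]
      linarith)
  refine h1.trans (pow_le_pow_right₀ (by norm_num) (Nat.mul_le_mul_left _ ?_))
  have h2 : s < 2 ^ s := Nat.lt_two_pow_self
  have h3 : 1 ≤ 2 ^ s := Nat.one_le_two_pow
  nlinarith

theorem EE_le (d : ℕ) : (EE d : ℝ) ≤ (65 / 64) ^ d := by
  unfold EE
  push_cast
  have h1 : (2 : ℝ) ≤ (65 / 64) ^ 60 := by norm_num
  calc (2 : ℝ) ^ (d / 60) ≤ ((65 / 64) ^ 60) ^ (d / 60) := pow_le_pow_left₀ (by norm_num) h1 _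
    _ = (65 / 64) ^ (60 * (d / 60)) := by rw [← pow_mul]
    _ ≤ (65 / 64) ^ d := pow_le_pow_right₀ (by norm_num) (Nat.mul_div_le d 60)

theorem geo_tail (x : ℝ) (hx0 : 0 ≤ x) (hx1 : x < 1) (J c : ℕ) :
    ∑ d ∈ Icc J c, x ^ d ≤ x ^ J / (1 - x) := by
  have h1x : 0 < 1 - x := by linarith
  have key : ∀ n : ℕ, ∑ d ∈ Ico J (J + n), x ^ d ≤ (x ^ J - x ^ (J + n)) / (1 - x) := by
    intro n
    induction n with
    | zero => simp
    | succ n ih =>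
      rw [← Nat.add_assoc, Finset.sum_Ico_succ_top (by omega)]
      refine (add_le_add_left ih _).trans (le_of_eq ?_)
      rw [pow_succ]
      field_simp
      ring
  by_cases hJ : J ≤ c
  · have h2 : Icc J c = Ico J (J + (c + 1 - J)) := by
      ext d
      rw [Finset.mem_Icc, Finset.mem_Ico]
      omega
    rw [h2]
    refine (key _).trans ?_
    have h3 : 0 ≤ x ^ (J + (c + 1 - J)) := pow_nonneg hx0 _
    gcongr
    linarith
  · rw [Finset.Icc_eq_empty hJ, Finset.sum_empty]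
    positivity

theorem lin_le_two_pow (M : ℕ) (hM : 1000 ≤ M) : 800 * (M + 1) ≤ 2 ^ M := by
  induction M, hM using Nat.le_induction with
  | base =>
    calc 800 * (1000 + 1) ≤ 2 ^ 20 := by norm_num
      _ ≤ 2 ^ 1000 := Nat.pow_le_pow_right (by norm_num) (by norm_num)
  | succ n hn ih =>
    rw [pow_succ]
    omega

theorem sq_le_four_pow (M : ℕ) (hM : 1000 ≤ M) : 16 * 960 * (M * M) ≤ 4 ^ M := by
  have h1 := lin_le_two_pow M hM
  have h2 : (800 * (M + 1)) * (800 * (M + 1)) ≤ 2 ^ M * 2 ^ M := Nat.mul_le_mul h1 h1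
  rw [← mul_pow] at h2
  norm_num at h2
  nlinarith

/-- sum of the exponents of the polar part -/
theorem polar_sum (M u j c : ℕ) (hc : c ≤ M) (hM : 1000 ≤ M) :
    ∑ d ∈ Icc (JJ u j) c, ((nd M d * (200 * EE d) : ℕ) : ℝ) ≤
      8 ^ M * ((u : ℝ) + j + 1) / 8 ^ (3 * j) / 4 + 4 ^ M / 4 := by
  have h1 : ∀ d ∈ Icc (JJ u j) c, ((nd M d * (200 * EE d) : ℕ) : ℝ) ≤
      200 * 8 ^ M * (195 / 256) ^ d + 200 * 2 ^ M := by
    intro d hd
    obtain ⟨-, hd2⟩ := Finset.mem_Icc.mp hd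
    push_cast
    have h2 := nd_le M d
    have h3 := EE_le d
    have h4 : (EE d : ℝ) ≤ 2 ^ M := by
      unfold EE
      push_cast
      refine pow_le_pow_right₀ (by norm_num) ?_
      omega
    have h5 : (0 : ℝ) ≤ EE d := Nat.cast_nonneg _
    calc (nd M d : ℝ) * (200 * EE d) ≤ (8 ^ M * (3 / 4) ^ d + 1) * (200 * EE d) :=
          mul_le_mul_of_nonneg_right h2 (by positivity)
      _ = 200 * 8 ^ M * (3 / 4) ^ d * EE d + 200 * EE d := by ring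
      _ ≤ 200 * 8 ^ M * (3 / 4) ^ d * (65 / 64) ^ d + 200 * 2 ^ M := by
          gcongr
      _ = 200 * 8 ^ M * (195 / 256) ^ d + 200 * 2 ^ M := by
          rw [mul_assoc (200 * (8 : ℝ) ^ M), ← mul_pow]
          norm_num
  refine (Finset.sum_le_sum h1).trans ?_
  rw [Finset.sum_add_distrib, ← Finset.mul_sum, Finset.sum_const, Nat.card_Icc, nsmul_eq_mul]
  have h2 := geo_tail (195 / 256) (by norm_num) (by norm_num) (JJ u j) c
  have h3 : ((195 : ℝ) / 256) ^ JJ u j ≤ 1 / 2 ^ (100 * (u + j + 1)) := by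
    unfold JJ
    rw [pow_mul]
    have h4 : ((195 : ℝ) / 256) ^ 300 ≤ (1 / 2) ^ 100 := by
      have h5 : ((195 : ℝ) / 256) ^ 3 ≤ 1 / 2 := by norm_num
      calc ((195 : ℝ) / 256) ^ 300 = (((195 : ℝ) / 256) ^ 3) ^ 100 := by rw [← pow_mul]
        _ ≤ (1 / 2) ^ 100 := pow_le_pow_left₀ (by positivity) h5 _
    calc (((195 : ℝ) / 256) ^ 300) ^ (u + j + 1) ≤ ((1 / 2) ^ 100) ^ (u + j + 1) :=
          pow_le_pow_left₀ (by positivity) h4 _
      _ = 1 / 2 ^ (100 * (u + j + 1)) := by rw [← pow_mul, one_div_pow]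
  have h4 : 200 * (8 : ℝ) ^ M * ∑ d ∈ Icc (JJ u j) c, (195 / 256 : ℝ) ^ d ≤
      8 ^ M * ((u : ℝ) + j + 1) / 8 ^ (3 * j) / 4 := by
    have h5 : (195 / 256 : ℝ) ^ JJ u j / (1 - 195 / 256) ≤ 5 * (1 / 2 ^ (100 * (u + j + 1))) := by
      rw [div_le_iff₀ (by norm_num)]
      have : (0 : ℝ) ≤ 1 / 2 ^ (100 * (u + j + 1)) := by positivity
      nlinarith
    have h6 : (1 : ℝ) / 2 ^ (100 * (u + j + 1)) ≤ 1 / (4000 * 8 ^ (3 * j)) := by
      apply one_div_le_one_div_of_le (by positivity)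
      calc 4000 * (8 : ℝ) ^ (3 * j) ≤ 2 ^ 12 * 2 ^ (9 * j) := by
            rw [pow_mul 8 3 j, pow_mul 2 9 j]
            norm_num
        _ = 2 ^ (12 + 9 * j) := by rw [pow_add]
        _ ≤ 2 ^ (100 * (u + j + 1)) := pow_le_pow_right₀ (by norm_num) (by omega)
    have h7 : (1 : ℝ) ≤ (u : ℝ) + j + 1 := by
      have : (0 : ℝ) ≤ (u : ℝ) := Nat.cast_nonneg _
      have : (0 : ℝ) ≤ (j : ℝ) := Nat.cast_nonneg _
      linarith
    calc 200 * (8 : ℝ) ^ M * ∑ d ∈ Icc (JJ u j) c, (195 / 256 : ℝ) ^ d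
        ≤ 200 * (8 : ℝ) ^ M * (5 * (1 / (4000 * 8 ^ (3 * j)))) := by
          gcongr
          exact h2.trans (h5.trans (by gcongr))
      _ = 8 ^ M * 1 / 8 ^ (3 * j) / 4 := by
          field_simp
          norm_num
      _ ≤ _ := by gcongr
  have h5 : ((c + 1 - JJ u j : ℕ) : ℝ) * (200 * 2 ^ M) ≤ 4 ^ M / 4 := by
    have h6 : ((c + 1 - JJ u j : ℕ) : ℝ) ≤ (M : ℝ) + 1 := by
      have : c + 1 - JJ u j ≤ M + 1 := by omega
      exact_mod_cast this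
    have h7 : 800 * ((M : ℝ) + 1) ≤ 2 ^ M := by
      have h8 : 800 * (M + 1) ≤ 2 ^ M := lin_le_two_pow M hM
      exact_mod_cast h8
    have h8 : (4 : ℝ) ^ M = 2 ^ M * 2 ^ M := by rw [← mul_pow]; norm_num
    rw [h8]
    have h9 : (0 : ℝ) < 2 ^ M := by positivity
    nlinarith
  linarith

theorem two_pow_size_le (M : ℕ) (hM : 0 < M) : 2 ^ Nat.size M ≤ 2 * M := by
  have h1 : 0 < Nat.size M := Nat.size_pos.mpr hM
  obtain ⟨k, hk⟩ : ∃ k, Nat.size M = k + 1 := ⟨Nat.size M - 1, by omega⟩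
  have h2 : 2 ^ k ≤ M := by
    rw [← Nat.lt_size]
    omega
  rw [hk, pow_succ]
  omega

/-- sum of the exponents of the far part -/
theorem far_sum (M u j : ℕ) (hu : u ≤ M) (hj : j ≤ M) (hM : 1000 ≤ M) :
    ∑ s ∈ range (Nat.size M + 1), ((ns M (JJ u j) s * ((JJ u j + 3 * u + 13) * 2 ^ s) : ℕ) : ℝ) ≤
      8 ^ M * ((u : ℝ) + j + 1) / 8 ^ (3 * j) / 4 + 4 ^ M / 4 := by
  set K : ℝ := ((JJ u j + 3 * u + 13 : ℕ) : ℝ) with hK
  have hK1 : K ≤ 320 * ((u : ℝ) + j + 1) := by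
    rw [hK]
    unfold JJ
    push_cast
    have : (0 : ℝ) ≤ (u : ℝ) := Nat.cast_nonneg _
    have : (0 : ℝ) ≤ (j : ℝ) := Nat.cast_nonneg _
    linarith
  have hK0 : 0 ≤ K := Nat.cast_nonneg _
  have h1 : ∀ s ∈ range (Nat.size M + 1),
      ((ns M (JJ u j) s * ((JJ u j + 3 * u + 13) * 2 ^ s) : ℕ) : ℝ) ≤
        K * (8 ^ M * (3 / 4) ^ JJ u j) * (1 / 2) ^ s + K * 2 ^ s := by
    intro s _
    have h2 := ns_le M (JJ u j) s
    have h3 : (1 / 4 : ℝ) ^ s * 2 ^ s = (1 / 2) ^ s := by rw [← mul_pow]; norm_num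
    rw [Nat.cast_mul, Nat.cast_mul, ← hK]
    push_cast
    calc (ns M (JJ u j) s : ℝ) * (K * 2 ^ s) ≤
        (8 ^ M * (3 / 4) ^ JJ u j * (1 / 4) ^ s + 1) * (K * 2 ^ s) :=
          mul_le_mul_of_nonneg_right h2 (by positivity)
      _ = K * (8 ^ M * (3 / 4) ^ JJ u j) * ((1 / 4) ^ s * 2 ^ s) + K * 2 ^ s := by ring
      _ = _ := by rw [h3]
  refine (Finset.sum_le_sum h1).trans ?_
  rw [Finset.sum_add_distrib, ← Finset.mul_sum, ← Finset.mul_sum]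
  have h2 : ∑ s ∈ range (Nat.size M + 1), (1 / 2 : ℝ) ^ s ≤ 2 := by
    have h3 := geo_tail (1 / 2) (by norm_num) (by norm_num) 0 (Nat.size M)
    have h4 : Icc 0 (Nat.size M) = range (Nat.size M + 1) := by
      ext d
      rw [Finset.mem_Icc, Finset.mem_range]
      omega
    rw [h4] at h3
    norm_num at h3 ⊢
    exact h3
  have h3 : ∑ s ∈ range (Nat.size M + 1), (2 : ℝ) ^ s ≤ 4 * M := by
    have h4 : ∑ s ∈ range (Nat.size M + 1), 2 ^ s = 2 ^ (Nat.size M + 1) - 1 :=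
      Nat.geomSum_eq (by norm_num) _ |>.trans (by norm_num)
    have h5 : ∑ s ∈ range (Nat.size M + 1), 2 ^ s ≤ 4 * M := by
      rw [h4, pow_succ]
      have := two_pow_size_le M (by omega)
      omega
    exact_mod_cast h5
  have h4 : ((3 : ℝ) / 4) ^ JJ u j ≤ 1 / 2 ^ (100 * (u + j + 1)) := by
    unfold JJ
    rw [pow_mul]
    have h4 : ((3 : ℝ) / 4) ^ 300 ≤ (1 / 2) ^ 100 := by
      have h5 : ((3 : ℝ) / 4) ^ 3 ≤ 1 / 2 := by norm_num
      calc ((3 : ℝ) / 4) ^ 300 = (((3 : ℝ) / 4) ^ 3) ^ 100 := by rw [← pow_mul]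
        _ ≤ (1 / 2) ^ 100 := pow_le_pow_left₀ (by positivity) h5 _
    calc (((3 : ℝ) / 4) ^ 300) ^ (u + j + 1) ≤ ((1 / 2) ^ 100) ^ (u + j + 1) :=
          pow_le_pow_left₀ (by positivity) h4 _
      _ = 1 / 2 ^ (100 * (u + j + 1)) := by rw [← pow_mul, one_div_pow]
  have h6 : (1 : ℝ) / 2 ^ (100 * (u + j + 1)) ≤ 1 / (2560 * 8 ^ (3 * j)) := by
    apply one_div_le_one_div_of_le (by positivity)
    calc 2560 * (8 : ℝ) ^ (3 * j) ≤ 2 ^ 12 * 2 ^ (9 * j) := by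
          rw [pow_mul 8 3 j, pow_mul 2 9 j]
          norm_num
      _ = 2 ^ (12 + 9 * j) := by rw [pow_add]
      _ ≤ 2 ^ (100 * (u + j + 1)) := pow_le_pow_right₀ (by norm_num) (by omega)
  have h7 : K * (8 ^ M * (3 / 4) ^ JJ u j) * ∑ s ∈ range (Nat.size M + 1), (1 / 2 : ℝ) ^ s ≤
      8 ^ M * ((u : ℝ) + j + 1) / 8 ^ (3 * j) / 4 := by
    calc K * (8 ^ M * (3 / 4) ^ JJ u j) * ∑ s ∈ range (Nat.size M + 1), (1 / 2 : ℝ) ^ s
        ≤ (320 * ((u : ℝ) + j + 1)) * (8 ^ M * (1 / (2560 * 8 ^ (3 * j)))) * 2 := by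
          gcongr
          exact h4.trans h6
      _ = 8 ^ M * ((u : ℝ) + j + 1) / 8 ^ (3 * j) / 4 := by
          field_simp
          norm_num
  have h8 : K * ∑ s ∈ range (Nat.size M + 1), (2 : ℝ) ^ s ≤ 4 ^ M / 4 := by
    have h9 : K ≤ 960 * M := by
      have e1 : (u : ℝ) ≤ M := by exact_mod_cast hu
      have e2 : (j : ℝ) ≤ M := by exact_mod_cast hj
      have e3 : (1 : ℝ) ≤ M := by
        have : 1 ≤ M := by omega
        exact_mod_cast this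
      linarith
    have h10 : (16 * 960 : ℝ) * ((M : ℝ) * M) ≤ 4 ^ M := by
      have h11 : 16 * 960 * (M * M) ≤ 4 ^ M := sq_le_four_pow M hM
      exact_mod_cast h11
    calc K * ∑ s ∈ range (Nat.size M + 1), (2 : ℝ) ^ s ≤ (960 * M) * (4 * M) := by
          gcongr
      _ = (16 * 960 : ℝ) * ((M : ℝ) * M) / 4 := by ring
      _ ≤ 4 ^ M / 4 := by gcongr
  linarith

end Pool.Agent.H74.CP
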