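import Pool.Agent.H74.CP.Cand
import Pool.Agent.H74.CP.ColNum
import Pool.Agent.H74.CM.Code

/-!
The code of an inactive column.
-/

set_option autoImplicit false

namespace Pool.Agent.H74.CP

open Finset ComplexConjugate H95.CP Pool.Agent.H98.CP Pool.Agent.H74.CM H67.CM

/-- spectrum and coefficients of a localised function -/
theorem co2_loc {M j b c : ℕ} (hb : Large j b) (hc : Large j c) (hbM : b ≤ M) (hcM : c ≤ M)
    (F : G M → ℂ) (k : G M) :
    co2 (loc j b c F) k = (ka j b (fa k.1) : ℂ) * (ka j c (fa k.2) : ℂ) * co2 F k := by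
  have h1 : 6 * 8 ^ b ≤ LL M := by
    have : 8 ^ b ≤ 8 ^ M := Nat.pow_le_pow_right (by norm_num) hbM
    unfold LL
    rw [pow_add]
    omega
  have h2 : 6 * 8 ^ c ≤ LL M := by
    have : 8 ^ c ≤ 8 ^ M := Nat.pow_le_pow_right (by norm_num) hcM
    unfold LL
    rw [pow_add]
    omega
  unfold loc
  rw [co2_conv]
  congr 1
  exact co2_vs hb hc h1 h2 k

theorem co2_loc_mem {M j b c : ℕ} (hb : Large j b) (hc : Large j c) (hbM : b ≤ M) (hcM : c ≤ M)
    (F : G M → ℂ) (k : G M) (hk : k ∈ DD M j b c) :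
    co2 (loc j b c F) k = co2 F k := by
  rw [co2_loc hb hc hbM hcM]
  rw [mem_DD] at hk
  rw [ka_one hb hk.1, ka_one hc hk.2]
  simp

theorem co2_loc_zero {M j b c : ℕ} (hb : Large j b) (hc : Large j c) (hbM : b ≤ M) (hcM : c ≤ M)
    (F : G M → ℂ) (k : G M) (hk : co2 (loc j b c F) k ≠ 0) :
    fa k.1 < 3 * 8 ^ b ∧ fa k.2 < 3 * 8 ^ c := by
  rw [co2_loc hb hc hbM hcM] at hk
  have h1 : (ka j b (fa k.1) : ℂ) ≠ 0 := fun h => hk (by rw [h]; ring)
  have h2 : (ka j c (fa k.2) : ℂ) ≠ 0 := fun h => hk (by rw [h]; ring)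
  constructor
  · by_contra hcon
    exact h1 (by
      rw [ka_zero hb]
      · simp
      · intro hh
        exact hcon hh.band.lt)
  · by_contra hcon
    exact h2 (by
      rw [ka_zero hc]
      · simp
      · intro hh
        exact hcon hh.band.lt)

/-- the decomposition of a coefficient of `g` -/
theorem co2_dec {M j b c : ℕ} (hb : Large j b) (hc : Large j c) (hbM : b ≤ M) (hcM : c ≤ M)
    (g Ψ : G M → ℝ) (k : G M) (hk : k ∈ DD M j b c) :
    co2 (cx g) k = co2 (loc j b c (cx (fun x => g x * Ψ x))) k -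
      ∑ lam, co2 (cx g) lam * co2 (wl j b c Ψ lam) k := by
  rw [co2_loc_mem hb hc hbM hcM _ k hk]
  have h1 : ∀ lam, co2 (cx g) lam * co2 (wl j b c Ψ lam) k =
      co2 (fun x => co2 (cx g) lam * (((Ψ x : ℂ) - 1) * ch2 lam x)) k := by
    intro lam
    unfold wl
    rw [co2_loc_mem hb hc hbM hcM _ k hk, co2_smul]
  simp_rw [h1]
  rw [← co2_sum univ (fun lam x => co2 (cx g) lam * (((Ψ x : ℂ) - 1) * ch2 lam x)) k]
  have h2 : (fun x => ∑ lam ∈ (univ : Finset (G M)),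
      co2 (cx g) lam * (((Ψ x : ℂ) - 1) * ch2 lam x)) =
      fun x => cx (fun x => g x * Ψ x) x - cx g x := by
    funext x
    have h3 := inversion2 (cx g) x
    have h4 : ∑ lam : G M, co2 (cx g) lam * (((Ψ x : ℂ) - 1) * ch2 lam x) =
        ((Ψ x : ℂ) - 1) * cx g x := by
      conv_rhs => rw [h3]
      rw [Finset.mul_sum]
      refine Finset.sum_congr rfl fun lam _ => ?_
      ring
    rw [h4]
    simp only [cx]
    push_cast
    ring
  rw [h2, co2_sub]
  ring

/-- Bessel's inequality on the grid -/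
theorem bessel {M b c : ℕ} (hbM : b ≤ M) (hcM : c ≤ M) (S : Finset (G M))
    (hS : ∀ k ∈ S, fa k.1 < 3 * 8 ^ b ∧ fa k.2 < 3 * 8 ^ c) (D : Gr (b + 1) (c + 1) → ℂ) :
    ∑ k : ↥S, ‖avg (8 ^ (b + 1)) (8 ^ (c + 1))
      (fun y => D y * conj (ch2 k.1 (pt (b + 1) (c + 1) y)))‖ ^ 2 ≤
      avgR (8 ^ (b + 1)) (8 ^ (c + 1)) (fun y => ‖D y‖ ^ 2) := by
  classical
  set YY : ℝ := ((8 ^ (b + 1) : ℕ) : ℝ) * ((8 ^ (c + 1) : ℕ) : ℝ) with hYY
  have hYY0 : 0 < YY := by
    rw [hYY]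
    positivity
  set κ : ℝ := 1 / √YY with hκ
  have hκ2 : κ * κ = 1 / YY := by
    rw [hκ]
    rw [div_mul_div_comm, Real.mul_self_sqrt hYY0.le]
    norm_num
  have hκc : ((κ : ℝ) : ℂ) * ((κ : ℝ) : ℂ) =
      1 / ((((8 ^ (b + 1) : ℕ)) : ℂ) * (((8 ^ (c + 1) : ℕ)) : ℂ)) := by
    rw [← Complex.ofReal_mul, hκ2, hYY]
    push_cast
    rfl
  set v : ↥S → EuclideanSpace ℂ (Gr (b + 1) (c + 1)) := fun k =>
    WithLp.toLp 2 (fun y => ((κ : ℝ) : ℂ) * ch2 k.1 (pt (b + 1) (c + 1) y)) with hv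
  have horth : ∀ k l : G M, k ∈ S → l ∈ S →
      avg (8 ^ (b + 1)) (8 ^ (c + 1)) (fun y => ch2 l (pt (b + 1) (c + 1) y) *
        conj (ch2 k (pt (b + 1) (c + 1) y))) = if l = k then 1 else 0 := by
    intro k l hk hl
    rw [← co2_ch2 (L := LL M) l k]
    refine grid_co (L := LL M) (A := 8 ^ (b + 1)) (B := 8 ^ (c + 1))
      (Nat.pow_dvd_pow 8 (by omega)) (Nat.pow_dvd_pow 8 (by omega)) (fun x => ch2 l x) k ?_
    intro m hm
    rw [co2_ch2] at hm
    have h1 : l = m := by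
      by_contra h
      rw [if_neg h] at hm
      exact hm rfl
    subst h1
    obtain ⟨h2, h3⟩ := hS k hk
    obtain ⟨h4, h5⟩ := hS l hl
    rw [pow_succ, pow_succ]
    constructor <;> omega
  have hon : Orthonormal ℂ v := by
    rw [orthonormal_iff_ite]
    intro k l
    have h1 : inner ℂ (v k) (v l) = avg (8 ^ (b + 1)) (8 ^ (c + 1))
        (fun y => ch2 l.1 (pt (b + 1) (c + 1) y) * conj (ch2 k.1 (pt (b + 1) (c + 1) y))) := by
      unfold avg
      rw [PiLp.inner_apply, ← hκc, Finset.mul_sum]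
      refine Finset.sum_congr rfl fun y _ => ?_
      simp only [hv, RCLike.inner_apply, map_mul, Complex.conj_ofReal]
      ring
    rw [h1, horth k.1 l.1 k.2 l.2]
    by_cases hkl : k = l
    · subst hkl
      simp
    · rw [if_neg hkl, if_neg]
      intro h
      exact hkl (Subtype.ext h.symm)
  set x : EuclideanSpace ℂ (Gr (b + 1) (c + 1)) :=
    WithLp.toLp 2 (fun y => ((κ : ℝ) : ℂ) * D y) with hx
  have h1 := hon.sum_inner_products_le x (s := (Finset.univ : Finset ↥S))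
  have h2 : ∀ k : ↥S, inner ℂ (v k) x = avg (8 ^ (b + 1)) (8 ^ (c + 1))
      (fun y => D y * conj (ch2 k.1 (pt (b + 1) (c + 1) y))) := by
    intro k
    unfold avg
    rw [PiLp.inner_apply, ← hκc, Finset.mul_sum]
    refine Finset.sum_congr rfl fun y _ => ?_
    simp only [hv, hx, RCLike.inner_apply, map_mul, Complex.conj_ofReal]
    ring
  simp_rw [h2] at h1
  refine h1.trans (le_of_eq ?_)
  rw [EuclideanSpace.norm_sq_eq]
  unfold avgR
  rw [← hYY, Finset.mul_sum]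
  refine Finset.sum_congr rfl fun y _ => ?_
  simp only [hx]
  rw [norm_mul, mul_pow, Complex.norm_real, Real.norm_eq_abs, sq_abs, sq κ, hκ2]

theorem size_add_le (u D : ℕ) : Nat.size (u + D) ≤ Nat.size u + Nat.size D := by
  rw [Nat.size_le]
  have h1 := Nat.lt_size_self u
  have h2 := Nat.lt_size_self D
  rw [pow_add]
  rcases Nat.eq_zero_or_pos u with h3 | h3
  · subst h3
    simpa using h2
  · rcases Nat.eq_zero_or_pos D with h4 | h4
    · subst h4
      simpa using h1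
    · have h5 : 2 ≤ 2 ^ Nat.size u := by
        have : 0 < Nat.size u := Nat.size_pos.mpr h3
        calc 2 = 2 ^ 1 := rfl
          _ ≤ _ := Nat.pow_le_pow_right (by norm_num) this
      have h6 : 2 ≤ 2 ^ Nat.size D := by
        have : 0 < Nat.size D := Nat.size_pos.mpr h4
        calc 2 = 2 ^ 1 := rfl
          _ ≤ _ := Nat.pow_le_pow_right (by norm_num) this
      nlinarith

theorem CV_le (j : ℕ) : CV j ≤ 2 ^ (14 + 4 * j) := by
  unfold CV
  have h1 : ((j : ℝ) + 2) ≤ 2 ^ (j + 1) := by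
    have h2 : j + 2 ≤ 2 ^ (j + 1) := by
      have : j + 1 < 2 ^ (j + 1) := Nat.lt_two_pow_self
      omega
    exact_mod_cast h2
  have h3 : (0 : ℝ) ≤ (j : ℝ) + 2 := by positivity
  calc (24 * ((j : ℝ) + 2) ^ 2) ^ 2 = 576 * ((j : ℝ) + 2) ^ 4 := by ring
    _ ≤ 1024 * (2 ^ (j + 1)) ^ 4 := by
        gcongr
        norm_num
    _ = 2 ^ (14 + 4 * j) := by
        rw [← pow_mul, pow_add, show (j + 1) * 4 = 4 + 4 * j from by ring, pow_add]
        norm_num
        ring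

end Pool.Agent.H74.CP
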