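import Pool.Agent.H74.CP.ColIn

/-!
Numerical inequalities for an inactive column, second part.
-/

set_option autoImplicit false

namespace Pool.Agent.H74.CP

open Finset H95.CP Pool.Agent.H98.CP

theorem polar_tau (M u j d : ℕ) (hd : d ≤ M + u) :
    4 * ((8 : ℝ) ^ (2 * j) * 2 ^ d / 8 ^ (SG u j)) ^ 2 * 8 ^ (M + u - d) / nd M d ≤
      (2 * (5 / 6 : ℝ) ^ d) ^ 2 := by
  have hn : (0 : ℝ) < nd M d := by exact_mod_cast nd_pos M d
  rw [div_le_iff₀ hn]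
  have h1 := nd_ge M d
  refine le_trans ?_ (mul_le_mul_of_nonneg_left h1 (by positivity))
  have h2 : (8 : ℝ) ^ (M + u - d) * 8 ^ d = 8 ^ M * 8 ^ u := by
    rw [← pow_add, ← pow_add]
    congr 1
    omega
  have h3 : (8 : ℝ) ^ (M + u - d) = 8 ^ M * 8 ^ u * (1 / 8) ^ d := by
    rw [← h2, mul_assoc, ← mul_pow]
    norm_num
  have h4 : ((8 : ℝ) ^ (2 * j) * 2 ^ d / 8 ^ (SG u j)) ^ 2 =
      8 ^ (4 * j) * 4 ^ d / 8 ^ (16 * (u + j)) := by
    unfold SG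
    rw [div_pow, mul_pow, ← pow_mul, ← pow_mul, ← pow_mul, show 2 * j * 2 = 4 * j from by ring,
      show 8 * (u + j) * 2 = 16 * (u + j) from by ring, mul_comm d 2, pow_mul 2 2 d]
    norm_num
  rw [h3, h4]
  have h5 : (8 : ℝ) ^ (4 * j) * 8 ^ u / 8 ^ (16 * (u + j)) ≤ 1 := by
    rw [div_le_one (by positivity), ← pow_add]
    exact pow_le_pow_right₀ (by norm_num) (by omega)
  have h6 : (4 : ℝ) ^ d * (1 / 8) ^ d = (1 / 2) ^ d := by
    rw [← mul_pow]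
    norm_num
  have h7 : (2 * (5 / 6 : ℝ) ^ d) ^ 2 * (8 ^ M * (3 / 4) ^ d) = 4 * 8 ^ M * (25 / 48) ^ d := by
    rw [mul_pow, ← pow_mul, mul_comm d 2, pow_mul (5 / 6 : ℝ) 2 d]
    rw [show (2 : ℝ) ^ 2 * ((5 / 6) ^ 2) ^ d * (8 ^ M * (3 / 4) ^ d) =
      2 ^ 2 * 8 ^ M * (((5 / 6) ^ 2) ^ d * (3 / 4) ^ d) from by ring, ← mul_pow]
    norm_num
  rw [h7]
  have h8 : (1 / 2 : ℝ) ^ d ≤ (25 / 48) ^ d := pow_le_pow_left₀ (by norm_num) (by norm_num) d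
  calc 4 * ((8 : ℝ) ^ (4 * j) * 4 ^ d / 8 ^ (16 * (u + j))) * (8 ^ M * 8 ^ u * (1 / 8) ^ d) =
      4 * 8 ^ M * ((8 : ℝ) ^ (4 * j) * 8 ^ u / 8 ^ (16 * (u + j))) * (4 ^ d * (1 / 8) ^ d) := by
        ring
    _ ≤ 4 * 8 ^ M * 1 * (25 / 48) ^ d := by
        rw [h6]
        gcongr
    _ = _ := by ring

theorem far_tau (M u j s : ℕ) :
    4 * ((8 : ℝ) ^ M * (8 ^ (8 * (j + s)) / √((8 : ℝ) ^ M))) ^ 2 *
      (64 * CV j * 8 ^ (SG u j) / 2 ^ (max (JJ u j) (60 * s))) ^ 2 / ns M (JJ u j) s ≤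
      ((1 / 2 : ℝ) ^ s) ^ 2 := by
  have hn : (0 : ℝ) < ns M (JJ u j) s := by exact_mod_cast ns_pos M (JJ u j) s
  rw [div_le_iff₀ hn]
  have h1 := ns_ge M (JJ u j) s
  have h8 : (0 : ℝ) < 8 ^ M := by positivity
  have h2 : (1 / 2 : ℝ) ^ (150 * (u + j + 1)) ≤ (3 / 4) ^ JJ u j := by
    unfold JJ
    rw [show 300 * (u + j + 1) = 2 * (150 * (u + j + 1)) from by ring, pow_mul (3 / 4 : ℝ) 2]
    exact pow_le_pow_left₀ (by norm_num) (by norm_num) _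
  have h3 : (8 : ℝ) ^ M * (1 / 2) ^ (150 * (u + j + 1)) * (1 / 4) ^ s ≤ ns M (JJ u j) s := by
    refine le_trans ?_ h1
    gcongr
  refine le_trans ?_ (mul_le_mul_of_nonneg_left h3 (by positivity))
  have h4 : ((8 : ℝ) ^ M * (8 ^ (8 * (j + s)) / √((8 : ℝ) ^ M))) ^ 2 =
      8 ^ M * 8 ^ (16 * (j + s)) := by
    rw [mul_pow, div_pow, Real.sq_sqrt h8.le, ← pow_mul 8 (8 * (j + s)) 2,
      show 8 * (j + s) * 2 = 16 * (j + s) from by ring]
    field_simp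
  rw [h4]
  have hmax : JJ u j + 60 * s ≤ 2 * max (JJ u j) (60 * s) := by
    have a1 := le_max_left (JJ u j) (60 * s)
    have a2 := le_max_right (JJ u j) (60 * s)
    omega
  have h5 : (64 * CV j * (8 : ℝ) ^ (SG u j) / 2 ^ (max (JJ u j) (60 * s))) ^ 2 ≤
      2 ^ (40 + 8 * j + 48 * (u + j)) / 2 ^ (JJ u j + 60 * s) := by
    rw [div_pow, ← pow_mul 2 (max (JJ u j) (60 * s)) 2]
    apply div_le_div₀ (by positivity) _ (by positivity) (pow_le_pow_right₀ (by norm_num) (by omega))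
    have h6 := CV_le j
    have h7 := (CV_pos j).le
    calc (64 * CV j * (8 : ℝ) ^ (SG u j)) ^ 2 ≤ (64 * 2 ^ (14 + 4 * j) * 8 ^ (SG u j)) ^ 2 := by
          gcongr
      _ = 2 ^ (40 + 8 * j + 48 * (u + j)) := by
          have e1 : (8 : ℝ) ^ (SG u j) = 2 ^ (24 * (u + j)) := by
            unfold SG
            rw [show (8 : ℝ) = 2 ^ 3 from by norm_num, ← pow_mul]
            congr 1
            ring
          have e2 : (64 : ℝ) = 2 ^ 6 := by norm_num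
          rw [e1, e2, ← pow_add, ← pow_add, ← pow_mul]
          congr 1
          ring
  have hJJ : JJ u j = 300 * (u + j + 1) := rfl
  calc 4 * ((8 : ℝ) ^ M * 8 ^ (16 * (j + s))) *
        (64 * CV j * 8 ^ (SG u j) / 2 ^ (max (JJ u j) (60 * s))) ^ 2 ≤
        4 * ((8 : ℝ) ^ M * 8 ^ (16 * (j + s))) *
          (2 ^ (40 + 8 * j + 48 * (u + j)) / 2 ^ (JJ u j + 60 * s)) := by
        gcongr
    _ = 8 ^ M * (2 ^ (42 + 104 * j + 48 * u + 48 * s) / 2 ^ (JJ u j + 60 * s)) := by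
        have e1 : (8 : ℝ) ^ (16 * (j + s)) = 2 ^ (48 * (j + s)) := by
          rw [show (8 : ℝ) = 2 ^ 3 from by norm_num, ← pow_mul]
          congr 1
          ring
        have e2 : (4 : ℝ) = 2 ^ 2 := by norm_num
        rw [e1, e2]
        rw [show (2 : ℝ) ^ (42 + 104 * j + 48 * u + 48 * s) =
          2 ^ 2 * 2 ^ (48 * (j + s)) * 2 ^ (40 + 8 * j + 48 * (u + j)) from by
            rw [← pow_add, ← pow_add]
            congr 1
            ring]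
        ring
    _ ≤ 8 ^ M * (1 / 2 ^ (150 * (u + j + 1) + 4 * s)) := by
        refine mul_le_mul_of_nonneg_left ?_ h8.le
        rw [div_le_div_iff₀ (by positivity) (by positivity), one_mul, ← pow_add]
        refine pow_le_pow_right₀ (by norm_num) ?_
        rw [hJJ]
        omega
    _ = ((1 / 2 : ℝ) ^ s) ^ 2 * (8 ^ M * (1 / 2) ^ (150 * (u + j + 1)) * (1 / 4) ^ s) := by
        have e1 : (1 / 4 : ℝ) ^ s = (1 / 2) ^ (2 * s) := by
          rw [pow_mul]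
          norm_num
        have e2 : (1 : ℝ) / 2 ^ (150 * (u + j + 1) + 4 * s) =
            (1 / 2) ^ (150 * (u + j + 1) + 4 * s) := by
          rw [one_div_pow]
        rw [e1, e2, ← pow_mul, pow_add, show 4 * s = s * 2 + 2 * s from by ring, pow_add]
        ring

/-- the sum of the errors -/
theorem tau_sum (M J c : ℕ) :
    ∑ d ∈ Icc J c, 2 * (5 / 6 : ℝ) ^ d + ∑ s ∈ range (Nat.size M + 1), (1 / 2 : ℝ) ^ s ≤ 14 := by
  have h1 : ∑ d ∈ Icc J c, 2 * (5 / 6 : ℝ) ^ d ≤ 12 := by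
    rw [← Finset.mul_sum]
    have h2 := geo_tail (5 / 6) (by norm_num) (by norm_num) J c
    have h3 : (5 / 6 : ℝ) ^ J ≤ 1 := pow_le_one₀ (by norm_num) (by norm_num)
    have h4 : (5 / 6 : ℝ) ^ J / (1 - 5 / 6) ≤ 6 := by
      rw [div_le_iff₀ (by norm_num)]
      linarith
    linarith
  have h2 : ∑ s ∈ range (Nat.size M + 1), (1 / 2 : ℝ) ^ s ≤ 2 := by
    have h3 := geo_tail (1 / 2) (by norm_num) (by norm_num) 0 (Nat.size M)
    have h4 : Icc 0 (Nat.size M) = range (Nat.size M + 1) := by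
      ext d
      rw [Finset.mem_Icc, Finset.mem_range]
      omega
    rw [h4] at h3
    norm_num at h3 ⊢
    exact h3
  linarith

/-- the number of samples of the `L¹` part -/
noncomputable def n0 (M j : ℕ) : ℕ := ⌊(8 : ℝ) ^ M / 8 ^ (8 * j)⌋₊ + 1

/-- the number of exceptional coefficients -/
noncomputable def r0 (M j : ℕ) : ℕ := ⌊(8 : ℝ) ^ M / 8 ^ (4 * j)⌋₊ + 1

theorem n0_ge (M j : ℕ) : (8 : ℝ) ^ M / 8 ^ (8 * j) ≤ n0 M j := by
  unfold n0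
  push_cast
  exact (Nat.lt_floor_add_one _).le

theorem n0_le (M j : ℕ) : (n0 M j : ℝ) ≤ (8 : ℝ) ^ M / 8 ^ (8 * j) + 1 := by
  unfold n0
  push_cast
  have := Nat.floor_le (by positivity : (0 : ℝ) ≤ (8 : ℝ) ^ M / 8 ^ (8 * j))
  linarith

theorem r0_ge (M j : ℕ) : (8 : ℝ) ^ M / 8 ^ (4 * j) ≤ r0 M j := by
  unfold r0
  push_cast
  exact (Nat.lt_floor_add_one _).le

theorem r0_le (M j : ℕ) : (r0 M j : ℝ) ≤ (8 : ℝ) ^ M / 8 ^ (4 * j) + 1 := by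
  unfold r0
  push_cast
  have := Nat.floor_le (by positivity : (0 : ℝ) ≤ (8 : ℝ) ^ M / 8 ^ (4 * j))
  linarith

/-- the exponential inequality -/
theorem chern_num (M u j : ℕ) (hj : 3 ≤ j) (hu : u < 2 ^ j) (X θ : ℝ) (hX : X ≤ 36 * 8 ^ (M + u))
    (hθ : θ = 8 ^ (8 * j) / √((8 : ℝ) ^ M) / 2) :
    4 * X * Real.exp (-(n0 M j * ((θ / 2) ^ 2 / (72 * ((8 : ℝ) ^ (2 * j)) ^ 2)))) ≤
      (r0 M j : ℝ) / 2 := by
  have h8 : (0 : ℝ) < 8 ^ M := by positivity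
  have h1 : (θ / 2) ^ 2 / (72 * ((8 : ℝ) ^ (2 * j)) ^ 2) = 8 ^ (12 * j) / (1152 * 8 ^ M) := by
    rw [hθ, div_pow, div_pow, div_pow, Real.sq_sqrt h8.le, ← pow_mul, ← pow_mul,
      show 8 * j * 2 = 12 * j + 2 * j * 2 from by ring, pow_add]
    field_simp
    norm_num
  have h2 : (8 : ℝ) ^ (4 * j) / 1152 ≤
      n0 M j * ((θ / 2) ^ 2 / (72 * ((8 : ℝ) ^ (2 * j)) ^ 2)) := by
    rw [h1]
    refine le_trans (le_of_eq ?_) (mul_le_mul_of_nonneg_right (n0_ge M j) (by positivity))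
    rw [show (8 : ℝ) ^ (12 * j) = 8 ^ (8 * j) * 8 ^ (4 * j) from by rw [← pow_add]; congr 1; ring]
    field_simp
  -- natural number exponent
  set N : ℕ := 9 + 3 * u + 12 * j with hN
  have h3 : (N : ℝ) ≤ (8 : ℝ) ^ (4 * j) / 1152 := by
    rw [le_div_iff₀ (by norm_num)]
    have h4 : N * 1152 ≤ 8 ^ (4 * j) := by
      have h5 : j < 2 ^ j := Nat.lt_two_pow_self
      have h6 : N ≤ 24 * 2 ^ j := by omega
      have h7 : (8 : ℕ) ^ (4 * j) = 2 ^ j * 2 ^ (11 * j) := by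
        rw [show (8 : ℕ) = 2 ^ 3 from by norm_num, ← pow_mul, ← pow_add]
        congr 1
        ring
      have h8 : (2 : ℕ) ^ 15 ≤ 2 ^ (11 * j) := Nat.pow_le_pow_right (by norm_num) (by omega)
      rw [h7]
      calc N * 1152 ≤ 24 * 2 ^ j * 1152 := Nat.mul_le_mul_right _ h6
        _ ≤ 2 ^ j * 2 ^ 15 := by
            rw [show 24 * 2 ^ j * 1152 = 2 ^ j * 27648 from by ring]
            exact Nat.mul_le_mul_left _ (by norm_num)
        _ ≤ _ := Nat.mul_le_mul_left _ h8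
    exact_mod_cast h4
  have h4 : Real.exp (-(n0 M j * ((θ / 2) ^ 2 / (72 * ((8 : ℝ) ^ (2 * j)) ^ 2)))) ≤
      (1 / 2) ^ N := by
    have h5 : Real.exp (-(N : ℝ)) ≤ (1 / 2) ^ N := by
      rw [Real.exp_neg, one_div, inv_pow]
      apply inv_anti₀ (by positivity)
      rw [← Real.exp_one_rpow, Real.rpow_natCast]
      refine pow_le_pow_left₀ (by norm_num) ?_ N
      have := Real.exp_one_gt_d9
      linarith
    refine le_trans (Real.exp_le_exp.mpr ?_) h5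
    linarith
  calc 4 * X * Real.exp (-(n0 M j * ((θ / 2) ^ 2 / (72 * ((8 : ℝ) ^ (2 * j)) ^ 2)))) ≤
      4 * (36 * 8 ^ (M + u)) * (1 / 2) ^ N := by
        have h6 : 0 ≤ Real.exp (-(n0 M j * ((θ / 2) ^ 2 / (72 * ((8 : ℝ) ^ (2 * j)) ^ 2)))) :=
          (Real.exp_pos _).le
        calc 4 * X * Real.exp (-(n0 M j * ((θ / 2) ^ 2 / (72 * ((8 : ℝ) ^ (2 * j)) ^ 2)))) ≤
            4 * (36 * 8 ^ (M + u)) *
              Real.exp (-(n0 M j * ((θ / 2) ^ 2 / (72 * ((8 : ℝ) ^ (2 * j)) ^ 2)))) := by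
              gcongr
          _ ≤ _ := by gcongr
    _ = 144 * 8 ^ M * (8 ^ u * ((1 / 2) ^ 9 * (1 / 2) ^ (3 * u) * (1 / 2) ^ (12 * j))) := by
        rw [hN, pow_add, pow_add, pow_add]
        ring
    _ = 144 / 512 * (8 ^ M / 8 ^ (4 * j)) := by
        have e1 : (8 : ℝ) ^ u * (1 / 2) ^ (3 * u) = 1 := by
          rw [pow_mul, ← mul_pow]
          norm_num
        have e2 : (1 / 2 : ℝ) ^ (12 * j) = 1 / 8 ^ (4 * j) := by
          rw [show 12 * j = 3 * (4 * j) from by ring, pow_mul (1 / 2 : ℝ) 3, ← one_div_pow]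
          norm_num
        rw [e2, show 144 * (8 : ℝ) ^ M * (8 ^ u * ((1 / 2) ^ 9 * (1 / 2) ^ (3 * u) *
          (1 / 8 ^ (4 * j)))) = 144 * 8 ^ M * (1 / 2) ^ 9 * (1 / 8 ^ (4 * j)) *
            (8 ^ u * (1 / 2) ^ (3 * u)) from by ring, e1]
        ring
    _ ≤ (8 : ℝ) ^ M / 8 ^ (4 * j) / 2 := by
        have : (0 : ℝ) ≤ 8 ^ M / 8 ^ (4 * j) := by positivity
        linarith
    _ ≤ _ := by
        have := r0_ge M j
        linarith

/-- the `L²` errors -/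
theorem err_num (M j : ℕ) (hj : 3 ≤ j) (T θ : ℝ) (hT0 : 0 ≤ T) (hT : T ≤ 14)
    (hθ : θ = 8 ^ (8 * j) / √((8 : ℝ) ^ M) / 2) :
    T ^ 2 / (θ / 2) ^ 2 ≤ (r0 M j : ℝ) / 2 := by
  have h8 : (0 : ℝ) < 8 ^ M := by positivity
  have h1 : (θ / 2) ^ 2 = 8 ^ (16 * j) / (16 * 8 ^ M) := by
    rw [hθ, div_pow, div_pow, div_pow, Real.sq_sqrt h8.le, ← pow_mul,
      show 8 * j * 2 = 16 * j from by ring]
    field_simp
    norm_num
  rw [h1, div_le_iff₀ (by positivity)]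
  have h2 := r0_ge M j
  have h3 : (8 : ℝ) ^ (16 * j) = 8 ^ (4 * j) * 8 ^ (12 * j) := by
    rw [← pow_add]
    congr 1
    ring
  have h4 : (6272 : ℝ) ≤ 8 ^ (12 * j) := by
    calc (6272 : ℝ) ≤ 8 ^ 5 := by norm_num
      _ ≤ 8 ^ (12 * j) := pow_le_pow_right₀ (by norm_num) (by omega)
  calc T ^ 2 ≤ 14 ^ 2 := pow_le_pow_left₀ hT0 hT 2
    _ = 6272 / 32 := by norm_num
    _ ≤ 8 ^ (12 * j) / 32 := by gcongr
    _ = (8 ^ M / 8 ^ (4 * j)) / 2 * (8 ^ (16 * j) / (16 * 8 ^ M)) := by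
        rw [h3]
        field_simp
        norm_num
    _ ≤ _ := by gcongr

/-- the `L¹` factor -/
theorem l1_factor (M u j : ℕ) (X : ℝ) (hX0 : 0 ≤ X) (hX : X ≤ 64 * 8 ^ (M + u)) :
    (Real.exp 1 * (4 * X + 1 + n0 M j) / n0 M j) ^ n0 M j ≤
      (2 : ℝ) ^ (n0 M j * (12 + 3 * u + 24 * j)) := by
  have h1 := pow_count (n0 M j) (9 + 3 * u + 24 * j) (4 * X) (Nat.succ_pos _) (by positivity) (by
    have h2 := n0_ge M j
    have h5 : (1 : ℝ) ≤ 8 ^ (M + u) := one_le_pow₀ (by norm_num)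
    have h6 : (2 : ℝ) ^ (9 + 3 * u + 24 * j) = 512 * 8 ^ u * 8 ^ (8 * j) := by
      rw [pow_add, pow_add, pow_mul, show 24 * j = 3 * (8 * j) from by ring, pow_mul 2 3 (8 * j)]
      norm_num
    rw [h6]
    refine le_trans ?_ (mul_le_mul_of_nonneg_right h2 (by positivity))
    have h7 : (8 : ℝ) ^ M / 8 ^ (8 * j) * (512 * 8 ^ u * 8 ^ (8 * j)) = 512 * 8 ^ (M + u) := by
      rw [pow_add]
      field_simp
    rw [h7]
    linarith)
  refine h1.trans (pow_le_pow_right₀ (by norm_num) (Nat.mul_le_mul_left _ ?_))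
  omega

/-- the factor of the list of the exceptional coefficients -/
theorem list_factor (M u j : ℕ) (X : ℝ) (hX0 : 0 ≤ X) (hX : X ≤ 36 * 8 ^ (M + u)) :
    (Real.exp 1 * (X * (2 * ((33554432 : ℕ) : ℝ) + 3) ^ 2 + 1 + r0 M j) / r0 M j) ^ r0 M j ≤
      (2 : ℝ) ^ (r0 M j * (62 + 3 * u + 12 * j)) := by
  have h1 := pow_count (r0 M j) (59 + 3 * u + 12 * j)
    (X * (2 * ((33554432 : ℕ) : ℝ) + 3) ^ 2) (Nat.succ_pos _) (by positivity) (by
    have h2 := r0_ge M j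
    have h5 : (1 : ℝ) ≤ 8 ^ (M + u) := one_le_pow₀ (by norm_num)
    have h6 : (2 : ℝ) ^ (59 + 3 * u + 12 * j) = 2 ^ 59 * 8 ^ u * 8 ^ (4 * j) := by
      rw [pow_add, pow_add, pow_mul, show 12 * j = 3 * (4 * j) from by ring, pow_mul 2 3 (4 * j)]
      norm_num
    rw [h6]
    refine le_trans ?_ (mul_le_mul_of_nonneg_right h2 (by positivity))
    have h7 : (8 : ℝ) ^ M / 8 ^ (4 * j) * (2 ^ 59 * 8 ^ u * 8 ^ (4 * j)) =
        2 ^ 59 * 8 ^ (M + u) := by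
      rw [pow_add]
      field_simp
    rw [h7]
    have h9 : X * (2 * ((33554432 : ℕ) : ℝ) + 3) ^ 2 ≤
        (36 * 8 ^ (M + u)) * (2 * ((33554432 : ℕ) : ℝ) + 3) ^ 2 := by gcongr
    refine (add_le_add_left h9 1).trans ?_
    push_cast
    nlinarith)
  rw [show 62 + 3 * u + 12 * j = 59 + 3 * u + 12 * j + 3 from by ring]
  exact h1

/-- the sum of all exponents -/
theorem total_num (M u j : ℕ) (hj : 3 ≤ j) (hu : u ≤ M) (hjM : j ≤ M) (hM : 1000 ≤ M) (P Q : ℝ)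
    (hP : P ≤ 8 ^ M * ((u : ℝ) + j + 1) / 8 ^ (3 * j) / 4 + 4 ^ M / 4)
    (hQ : Q ≤ 8 ^ M * ((u : ℝ) + j + 1) / 8 ^ (3 * j) / 4 + 4 ^ M / 4) :
    ((n0 M j * (12 + 3 * u + 24 * j) : ℕ) : ℝ) + ((r0 M j * (62 + 3 * u + 12 * j) : ℕ) : ℝ) +
      (P + Q) ≤ cin M u j := by
  unfold cin
  have h1 := n0_le M j
  have h2 := r0_le M j
  have h7 : (1 : ℝ) ≤ (u : ℝ) + j + 1 := by
    have : (0 : ℝ) ≤ (u : ℝ) := Nat.cast_nonneg _
    have : (0 : ℝ) ≤ (j : ℝ) := Nat.cast_nonneg _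
    linarith
  have hu0 : (0 : ℝ) ≤ (u : ℝ) := Nat.cast_nonneg _
  have hj0 : (0 : ℝ) ≤ (j : ℝ) := Nat.cast_nonneg _
  set W : ℝ := (u : ℝ) + j + 1 with hW
  have h3 : ((n0 M j * (12 + 3 * u + 24 * j) : ℕ) : ℝ) ≤ (8 ^ M / 8 ^ (8 * j) + 1) * (24 * W) := by
    push_cast
    have h4 : (12 : ℝ) + 3 * u + 24 * j ≤ 24 * W := by
      rw [hW]
      linarith
    exact mul_le_mul h1 h4 (by positivity) (by positivity)
  have h4 : ((r0 M j * (62 + 3 * u + 12 * j) : ℕ) : ℝ) ≤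
      (8 ^ M / 8 ^ (4 * j) + 1) * (62 * W) := by
    push_cast
    have h4 : (62 : ℝ) + 3 * u + 12 * j ≤ 62 * W := by
      rw [hW]
      linarith
    exact mul_le_mul h2 h4 (by positivity) (by positivity)
  have h8 : (0 : ℝ) < 8 ^ M := by positivity
  have h5 : (8 : ℝ) ^ M / 8 ^ (8 * j) * (24 * W) ≤ 8 ^ M * W / 8 ^ (3 * j) / 4 := by
    rw [show 8 * j = 3 * j + 5 * j from by ring, pow_add]
    have h6 : (96 : ℝ) ≤ 8 ^ (5 * j) := by
      calc (96 : ℝ) ≤ 8 ^ 5 := by norm_num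
        _ ≤ 8 ^ (5 * j) := pow_le_pow_right₀ (by norm_num) (by omega)
    have e : (8 : ℝ) ^ M / (8 ^ (3 * j) * 8 ^ (5 * j)) * (24 * W) =
        8 ^ M * W / 8 ^ (3 * j) / 4 * (96 / 8 ^ (5 * j)) := by
      field_simp
      norm_num
    rw [e]
    refine mul_le_of_le_one_right (by positivity) ?_
    rw [div_le_one (by positivity)]
    exact h6
  have h6 : (8 : ℝ) ^ M / 8 ^ (4 * j) * (62 * W) ≤ 8 ^ M * W / 8 ^ (3 * j) / 4 := by
    have e0 : (8 : ℝ) ^ (4 * j) = 8 ^ (3 * j) * 8 ^ j := by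
      rw [← pow_add]
      congr 1
      ring
    rw [e0]
    have h6 : (248 : ℝ) ≤ 8 ^ j := by
      calc (248 : ℝ) ≤ 8 ^ 3 := by norm_num
        _ ≤ 8 ^ j := pow_le_pow_right₀ (by norm_num) hj
    have e : (8 : ℝ) ^ M / (8 ^ (3 * j) * 8 ^ j) * (62 * W) =
        8 ^ M * W / 8 ^ (3 * j) / 4 * (248 / 8 ^ j) := by
      field_simp
      norm_num
    rw [e]
    refine mul_le_of_le_one_right (by positivity) ?_
    rw [div_le_one (by positivity)]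
    exact h6
  have h9 : 86 * W ≤ 4 ^ M / 2 := by
    have e1 : (u : ℝ) ≤ M := by exact_mod_cast hu
    have e2 : (j : ℝ) ≤ M := by exact_mod_cast hjM
    have e3 : (1000 : ℝ) ≤ M := by exact_mod_cast hM
    have e4 : (16 * 960 : ℝ) * ((M : ℝ) * M) ≤ 4 ^ M := by exact_mod_cast sq_le_four_pow M hM
    rw [hW]
    nlinarith
  linarith

end Pool.Agent.H74.CP
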