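import Pool.Agent.H74.CP.Cards
import Pool.Agent.H74.CM.Dual
import Pool.Agent.H74.CM.Column

/-!
The function of an inactive column: an `L¹` part and a part with few candidates in `L²`.
-/

set_option autoImplicit false

namespace Pool.Agent.H74.CP

open Finset ComplexConjugate H95.CP Pool.Agent.H98.CP Pool.Agent.H74.CM H67.CM

theorem loc_real {M : ℕ} (j b c : ℕ) (F : G M → ℝ) (x : G M) :
    loc j b c (cx F) x = (((loc j b c (cx F) x).re : ℝ) : ℂ) := by
  have h : loc j b c (cx F) x = ((ER (fun s => vs j b c s * F (x - s)) : ℝ) : ℂ) := by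
    unfold loc conv
    rw [← E_ofReal]
    congr 1
    funext s
    simp only [cx]
    push_cast
    rfl
  rw [h, Complex.ofReal_re]

/-- the linear functional with given coefficients -/
noncomputable def linf {Y : Type*} [Fintype Y] (q : Y → ℝ) : (Y → ℝ) →ₗ[ℝ] ℝ :=
  ∑ i, q i • LinearMap.proj (R := ℝ) (φ := fun _ : Y => ℝ) i

theorem linf_apply {Y : Type*} [Fintype Y] (q η : Y → ℝ) : linf q η = ∑ i, q i * η i := by
  unfold linf
  simp

/-- real or imaginary part of an atom -/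
noncomputable def rat {M b c : ℕ} (Φ : ∀ V, ZMod (LL M) → Gr (b + 2) (V + 2) → G M → ℂ)
    (d : ℕ) (α : PJ M b c d) (y : Gr (b + 1) (c + 1)) : ℝ :=
  if α.2.2 then (Φ (c - d) α.1.1 α.2.1 (pt (b + 1) (c + 1) y)).re
    else (Φ (c - d) α.1.1 α.2.1 (pt (b + 1) (c + 1) y)).im

/-- representation of a function with small test values -/
theorem rep {M j b c J sg : ℕ} (Ψ : G M → ℝ)
    (Φ : ∀ V, ZMod (LL M) → Gr (b + 2) (V + 2) → G M → ℂ)
    (hΦ : ∀ V, V + J ≤ c → ∀ w p, ∀ η : Gr (b + 1) (c + 1) → ℝ,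
      strip V w (cx (fun x => Ψ x * hh j b c η x)) (pt (b + 2) (V + 2) p) =
        avg _ _ (fun y => (η y : ℂ) * Φ V w p (pt (b + 1) (c + 1) y)))
    (F : G M → ℝ) (B : ℝ)
    (hB : ∀ η : Gr (b + 1) (c + 1) → ℝ, Adm j b c J sg Ψ η → tst j b c Ψ F η ≤ B) :
    ∃ (e : Gr (b + 1) (c + 1) → ℝ) (a : ∀ d, PJ M b c d → ℝ),
      (∀ y, loc j b c (cx (fun x => F x * Ψ x)) (pt (b + 1) (c + 1) y) =
        ((e y + ∑ d ∈ Icc J c, ∑ α : PJ M b c d, a d α * rat Φ d α y : ℝ) : ℂ)) ∧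
      avgR (8 ^ (b + 1)) (8 ^ (c + 1)) (fun y => |e y|) ≤ B ∧
      ∀ d ∈ Icc J c, ∑ α : PJ M b c d, |a d α| ≤ B * 2 ^ d / 8 ^ sg := by
  classical
  -- the index type
  set I := (Gr (b + 1) (c + 1)) ⊕ (Σ d : ↥(Icc J c), PJ M b c d.1) with hI
  set KK : ℝ := 1 / (((8 ^ (b + 1) : ℕ) : ℝ) * ((8 ^ (c + 1) : ℕ) : ℝ)) with hKK
  have hK0 : 0 < KK := by
    rw [hKK]
    positivity
  set Q : I → (Gr (b + 1) (c + 1)) → ℝ := fun i => match i with
    | Sum.inl y => fun y' => if y' = y then 1 else 0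
    | Sum.inr ⟨d, α⟩ => fun y => KK * rat Φ d.1 α y with hQ
  set C : I → ℝ := fun i => match i with
    | Sum.inl _ => 1
    | Sum.inr ⟨d, _⟩ => 8 ^ sg / 2 ^ d.1 with hC
  have hC0 : ∀ i, 0 < C i := by
    intro i
    rcases i with y | ⟨d, α⟩
    · simp [hC]
    · simp only [hC]
      positivity
  set t : (Gr (b + 1) (c + 1)) → ℝ := fun y =>
    KK * (loc j b c (cx (fun x => F x * Ψ x)) (pt (b + 1) (c + 1) y)).re with ht
  have htst : ∀ η, linf t η = tst j b c Ψ F η := by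
    intro η
    rw [linf_apply]
    unfold tst avgR
    rw [Finset.mul_sum]
    refine Finset.sum_congr rfl fun y _ => ?_
    simp only [ht, hKK]
    ring
  -- the values of the constraint functionals
  have hstrip : ∀ d, J ≤ d → d ≤ c → ∀ (α : PJ M b c d) (η : Gr (b + 1) (c + 1) → ℝ),
      ∑ y, (KK * rat Φ d α y) * η y =
        if α.2.2 then (strip (c - d) α.1.1 (cx (fun x => Ψ x * hh j b c η x))
          (pt (b + 2) (c - d + 2) α.2.1)).re
        else (strip (c - d) α.1.1 (cx (fun x => Ψ x * hh j b c η x))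
          (pt (b + 2) (c - d + 2) α.2.1)).im := by
    intro d hd1 hd2 α η
    rw [hΦ (c - d) (by omega) α.1.1 α.2.1 η]
    have h2 : (1 / ((((8 ^ (b + 1) : ℕ)) : ℂ) * (((8 ^ (c + 1) : ℕ)) : ℂ))) =
        ((KK : ℝ) : ℂ) := by rw [hKK]; push_cast; rfl
    unfold avg rat
    rw [h2]
    cases α.2.2
    · simp only [Bool.false_eq_true, if_false]
      rw [Complex.im_ofReal_mul, Complex.im_sum, Finset.mul_sum]
      refine Finset.sum_congr rfl fun i _ => ?_
      rw [Complex.im_ofReal_mul]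
      ring
    · simp only [if_true]
      rw [Complex.re_ofReal_mul, Complex.re_sum, Finset.mul_sum]
      refine Finset.sum_congr rfl fun i _ => ?_
      rw [Complex.re_ofReal_mul]
      ring
  obtain ⟨a, ha1, ha2⟩ := finite_dual (fun i => linf (Q i)) C hC0 (linf t) B (by
    intro η hη
    rw [htst]
    refine hB η ⟨fun y => ?_, ?_⟩
    · have h1 := hη (Sum.inl y)
      rw [linf_apply] at h1
      simpa [hQ, hC] using h1
    · intro V hV w hw p
      have hd : c - V ∈ Icc J c := by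
        rw [Finset.mem_Icc]
        omega
      have hVd : c - (c - V) = V := by omega
      -- the index of scale c - V
      have key : ∀ β : Bool, |if β then
          (strip V w (cx (fun x => Ψ x * hh j b c η x)) (pt (b + 2) (V + 2) p)).re
          else (strip V w (cx (fun x => Ψ x * hh j b c η x)) (pt (b + 2) (V + 2) p)).im| ≤
          8 ^ sg / 2 ^ (c - V) := by
        intro β
        -- transport along c - (c - V) = V
        have gen : ∀ V' : ℕ, ∀ hV' : c - (c - V) = V', ∀ (w : ZMod (LL M)) (_ : WS c V' w)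
            (p : Gr (b + 2) (V' + 2)), |if β then
            (strip V' w (cx (fun x => Ψ x * hh j b c η x)) (pt (b + 2) (V' + 2) p)).re
            else (strip V' w (cx (fun x => Ψ x * hh j b c η x)) (pt (b + 2) (V' + 2) p)).im| ≤
            8 ^ sg / 2 ^ (c - V) := by
          intro V' hV' w hw p
          subst hV'
          have h1 := hη (Sum.inr ⟨⟨c - V, hd⟩, (⟨w, mem_WF.mpr hw⟩, p, β)⟩)
          rw [linf_apply] at h1
          simp only [hQ, hC] at h1
          have h2 := hstrip (c - V) (Finset.mem_Icc.mp hd).1 (Finset.mem_Icc.mp hd).2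
            (⟨w, mem_WF.mpr hw⟩, p, β) η
          rw [h2] at h1
          exact h1
        exact gen V hVd w hw p
      exact ⟨by simpa using key true, by simpa using key false⟩)
  have hpt : ∀ y, t y = ∑ i, a i * Q i y := by
    intro y
    have h1 := ha1 (Pi.single y 1)
    rw [linf_apply] at h1
    have h2 : ∀ q : (Gr (b + 1) (c + 1)) → ℝ,
        ∑ i, q i * (Pi.single y (1 : ℝ) : (Gr (b + 1) (c + 1)) → ℝ) i = q y := by
      intro q
      rw [Finset.sum_eq_single y]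
      · simp
      · intro i _ hi
        rw [Pi.single_eq_of_ne hi, mul_zero]
      · intro h
        exact absurd (Finset.mem_univ _) h
    rw [h2] at h1
    rw [h1]
    refine Finset.sum_congr rfl fun i _ => ?_
    rw [linf_apply, h2]
  refine ⟨fun y => a (Sum.inl y) / KK,
    fun d α => if h : d ∈ Icc J c then a (Sum.inr ⟨⟨d, h⟩, α⟩) else 0, ?_, ?_, ?_⟩
  · intro y
    rw [loc_real]
    congr 1
    have h1 := hpt y
    simp only [ht] at h1
    rw [Fintype.sum_sum_type] at h1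
    have h2 : ∑ y' : Gr (b + 1) (c + 1), a (Sum.inl y') * Q (Sum.inl y') y = a (Sum.inl y) := by
      rw [Finset.sum_eq_single y]
      · simp [hQ]
      · intro y' _ hy'
        simp [hQ, hy'.symm]
      · intro h
        exact absurd (Finset.mem_univ _) h
    have h3 : ∑ x : (Σ d : ↥(Icc J c), PJ M b c d.1), a (Sum.inr x) * Q (Sum.inr x) y =
        KK * ∑ d ∈ Icc J c, ∑ α : PJ M b c d,
          (if h : d ∈ Icc J c then a (Sum.inr ⟨⟨d, h⟩, α⟩) else 0) * rat Φ d α y := by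
      rw [Fintype.sum_sigma, ← Finset.sum_coe_sort (Icc J c)
        (fun d => ∑ α : PJ M b c d, (if h : d ∈ Icc J c then a (Sum.inr ⟨⟨d, h⟩, α⟩) else 0) *
          rat Φ d α y), Finset.mul_sum]
      refine Finset.sum_congr rfl fun d _ => ?_
      rw [Finset.mul_sum]
      refine Finset.sum_congr rfl fun α _ => ?_
      rw [dif_pos d.2]
      simp only [hQ]
      ring
    rw [h2, h3] at h1
    have h4 : (loc j b c (cx (fun x => F x * Ψ x)) (pt (b + 1) (c + 1) y)).re =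
        (KK * (loc j b c (cx (fun x => F x * Ψ x)) (pt (b + 1) (c + 1) y)).re) / KK := by
      field_simp
    rw [h4, h1, add_div, mul_div_cancel_left₀ _ hK0.ne']
  · have h0 : avgR (8 ^ (b + 1)) (8 ^ (c + 1)) (fun y => |a (Sum.inl y) / KK|) =
        ∑ y, |a (Sum.inl y)| := by
      unfold avgR
      rw [Finset.mul_sum]
      refine Finset.sum_congr rfl fun y _ => ?_
      rw [abs_div, abs_of_pos hK0, ← hKK]
      field_simp
    rw [h0]
    rw [Fintype.sum_sum_type] at ha2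
    have h1 : 0 ≤ ∑ i : (Σ d : ↥(Icc J c), PJ M b c d.1), |a (Sum.inr i)| * C (Sum.inr i) :=
      Finset.sum_nonneg fun i _ => mul_nonneg (abs_nonneg _) (hC0 (Sum.inr i)).le
    have h2 : ∑ y : Gr (b + 1) (c + 1), |a (Sum.inl y)| * C (Sum.inl y) =
        ∑ y, |a (Sum.inl y)| := by
      refine Finset.sum_congr rfl fun y _ => ?_
      simp [hC]
    rw [h2] at ha2
    linarith
  · intro d hd
    rw [Fintype.sum_sum_type, Fintype.sum_sigma] at ha2
    have h1 : 0 ≤ ∑ y : Gr (b + 1) (c + 1), |a (Sum.inl y)| * C (Sum.inl y) :=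
      Finset.sum_nonneg fun i _ => mul_nonneg (abs_nonneg _) (hC0 (Sum.inl i)).le
    have hn : ∀ d ∈ (Finset.univ : Finset ↥(Icc J c)),
        0 ≤ ∑ α : PJ M b c d.1, |a (Sum.inr ⟨d, α⟩)| * C (Sum.inr ⟨d, α⟩) := fun d _ =>
      Finset.sum_nonneg fun i _ => mul_nonneg (abs_nonneg _) (hC0 (Sum.inr ⟨d, i⟩)).le
    have h2 := Finset.single_le_sum hn (Finset.mem_univ (⟨d, hd⟩ : ↥(Icc J c)))
    have h2' : ∑ α : PJ M b c d, |a (Sum.inr ⟨⟨d, hd⟩, α⟩)| * C (Sum.inr ⟨⟨d, hd⟩, α⟩) ≤ B := by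
      linarith
    have h3 : (∑ α : PJ M b c d, |a (Sum.inr ⟨⟨d, hd⟩, α⟩)|) * (8 ^ sg / 2 ^ d) ≤ B := by
      rw [Finset.sum_mul]
      exact h2'
    have h4 : ∀ α : PJ M b c d,
        |(if h : d ∈ Icc J c then a (Sum.inr ⟨⟨d, h⟩, α⟩) else 0)| =
          |a (Sum.inr ⟨⟨d, hd⟩, α⟩)| := by
      intro α
      rw [dif_pos hd]
    simp_rw [h4]
    have h5 : (0 : ℝ) < 8 ^ sg / 2 ^ d := by positivity
    rw [← le_div_iff₀ h5] at h3
    refine h3.trans (le_of_eq ?_)
    field_simp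

/-- the `L²` norm of an atom on the grid -/
theorem rat_L2 {M j b c : ℕ} (hbM : b ≤ M) (hcM : c ≤ M)
    (Φ : ∀ V, ZMod (LL M) → Gr (b + 2) (V + 2) → G M → ℂ) (d : ℕ) (α : PJ M b c d)
    (hsp : ∀ k, co2 (Φ (c - d) α.1.1 α.2.1) k ≠ 0 → Half j b (fa k.1) ∧ Half j c (fa k.2))
    (V : ℝ) (hV : ∑ k, ‖co2 (Φ (c - d) α.1.1 α.2.1) k‖ ^ 2 ≤ V) :
    ∑ y, ‖((rat Φ d α y : ℝ) : ℂ)‖ ^ 2 ≤
      (((8 ^ (b + 1) : ℕ) : ℝ) * ((8 ^ (c + 1) : ℕ) : ℝ)) * V := by
  have h1 := grid_parseval (L := LL M) (A := 8 ^ (b + 1)) (B := 8 ^ (c + 1))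
    (Nat.pow_dvd_pow 8 (by omega)) (Nat.pow_dvd_pow 8 (by omega))
    (Φ (c - d) α.1.1 α.2.1) (by
      intro k hk
      obtain ⟨h2, h3⟩ := hsp k hk
      have h4 := h2.band.lt
      have h5 := h3.band.lt
      rw [pow_succ, pow_succ]
      constructor <;> omega)
  have h2 : ∀ y, ‖((rat Φ d α y : ℝ) : ℂ)‖ ^ 2 ≤
      ‖Φ (c - d) α.1.1 α.2.1 (pt (b + 1) (c + 1) y)‖ ^ 2 := by
    intro y
    rw [Complex.norm_real, Real.norm_eq_abs]
    refine pow_le_pow_left₀ (abs_nonneg _) ?_ 2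
    unfold rat
    split_ifs
    · exact Complex.abs_re_le_norm _
    · exact Complex.abs_im_le_norm _
  refine (Finset.sum_le_sum fun y _ => h2 y).trans ?_
  have h3 : ∑ y, ‖Φ (c - d) α.1.1 α.2.1 (pt (b + 1) (c + 1) y)‖ ^ 2 =
      (((8 ^ (b + 1) : ℕ) : ℝ) * ((8 ^ (c + 1) : ℕ) : ℝ)) *
        avgR (8 ^ (b + 1)) (8 ^ (c + 1))
          (fun i => ‖Φ (c - d) α.1.1 α.2.1 (gp2 _ _ i)‖ ^ 2) := by
    unfold avgR
    rw [← mul_assoc, mul_one_div_cancel (by positivity), one_mul]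
    rfl
  rw [h3, h1]
  exact mul_le_mul_of_nonneg_left hV (by positivity)

end Pool.Agent.H74.CP
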